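import Pool.Agent.H717R2.ON3.Fun1
import Pool.Agent.H983R2.ONJ.GeoB

/-!
# Renormalised scores: definitions

`ESS G β r w`: the polynomials `w x g` are local fields of range `r` which satisfy the same
integration by parts rules as the scores of the rotations of single spins, but only for
rotation fields which are constant on the scale `r`.
-/

set_option autoImplicit false
set_option linter.unusedSectionVars false

noncomputable section

namespace Pool.Agent.J4H66.MG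

open MvPolynomial Pool.Agent.H5R2.ON Pool.Agent.H717R2.ON3 Pool.Agent.H983R2.ONJ

/-! ### polynomials in the variables of a set of sites -/

section VL

variable {V : Type}

/-- only the variables at the sites of `A` occur in `F` -/
def VL (A : Set V) (F : Alg V) : Prop := F ∈ supported ℝ {i : V × Fin 3 | i.1 ∈ A}

theorem VL.mono {A B : Set V} {F : Alg V} (h : VL A F) (hAB : A ⊆ B) : VL B F := by
  have h1 : {i : V × Fin 3 | i.1 ∈ A} ⊆ {i : V × Fin 3 | i.1 ∈ B} := fun i hi => hAB hi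
  exact supported_mono (R := ℝ) h1 h

theorem VL.mul {A : Set V} {F H : Alg V} (hF : VL A F) (hH : VL A H) : VL A (F * H) :=
  Subalgebra.mul_mem _ hF hH

theorem VL.add {A : Set V} {F H : Alg V} (hF : VL A F) (hH : VL A H) : VL A (F + H) :=
  Subalgebra.add_mem _ hF hH

theorem VL.sub {A : Set V} {F H : Alg V} (hF : VL A F) (hH : VL A H) : VL A (F - H) :=
  Subalgebra.sub_mem _ hF hH

theorem VL.smul {A : Set V} {F : Alg V} (hF : VL A F) (c : ℝ) : VL A (c • F) :=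
  Subalgebra.smul_mem _ hF c

theorem VL.sum {A : Set V} {α : Type} {I : Finset α} {F : α → Alg V}
    (hF : ∀ a ∈ I, VL A (F a)) : VL A (∑ a ∈ I, F a) :=
  Subalgebra.sum_mem _ hF

theorem VL_X {A : Set V} {x : V} (hx : x ∈ A) (g : Fin 3) : VL A (X (x, g) : Alg V) := by
  unfold VL
  exact Algebra.subset_adjoin ⟨(x, g), hx, rfl⟩

theorem VL.eval_congr {A : Set V} {F : Alg V} (hF : VL A F) {σ σ' : V × Fin 3 → ℝ}
    (h : ∀ x ∈ A, ∀ g, σ (x, g) = σ' (x, g)) : eval σ F = eval σ' F := by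
  refine hom_congr_vars ?_ ?_ rfl
  · ext x
    simp
  · intro i hi _
    have h1 := mem_supported.1 hF hi
    simp only [eval_X]
    exact h i.1 h1 i.2

theorem VL.loc [DecidableEq V] {A : Set V} {F : Alg V} (hF : VL A F) : Loc A F := by
  intro x hx g
  refine derivation_eq_zero_of_forall_mem_vars ?_
  intro i hi
  have h1 : i.1 ∈ A := mem_supported.1 hF hi
  rw [D_X, if_neg]
  intro h2
  exact hx (h2 ▸ h1)

end VL

theorem Loc_one {V : Type} [DecidableEq V] (A : Set V) : Loc A (1 : Alg V) := by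
  intro x _ g
  exact Derivation.map_one_eq_zero _

theorem Loc_R {V : Type} [Fintype V] [DecidableEq V] {A : Set V} {F : Alg V} (hF : Loc A F)
    (b : V → ℝ) (g : Fin 3) : Loc A (R b g F) := by
  intro x hx h
  rw [Pool.Agent.H717R2.ON3.R_apply, map_sum]
  refine Finset.sum_eq_zero fun y _ => ?_
  rw [Derivation.map_smul]
  by_cases hxy : x = y
  · subst hxy
    rw [hF x hx g, map_zero, smul_zero]
  · rw [D_comm hxy, hF x hx h, map_zero, smul_zero]

theorem R_one_one {V : Type} [Fintype V] [DecidableEq V] (b : V → ℝ) (g : Fin 3) :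
    R b g (1 : Alg V) = 0 := Derivation.map_one_eq_zero _

variable {L : ℕ} [NeZero L] {ι : Type} [Fintype ι]

/-- `∑ b_x w_x^g` -/
def wS (w : Tor L → Fin 3 → Alg (Tor L)) (b : Tor L → ℝ) (g : Fin 3) : Alg (Tor L) :=
  ∑ x, b x • w x g

/-- renormalised scores -/
structure ESS (G : Gr (Tor L) ι) (β r : ℝ) (w : Tor L → Fin 3 → Alg (Tor L)) : Prop where
  cov0 : ∀ x g, R (fun _ => 1) g (w x g) = 0
  cov1 : ∀ x g, R (fun _ => 1) g (w x (g + 1)) = -w x (g + 2)
  cov2 : ∀ x g, R (fun _ => 1) g (w x (g + 2)) = w x (g + 1)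
  loc : ∀ (b : Tor L → ℝ) (g : Fin 3) (A : Set (Tor L)),
    (∀ z, z ∉ A → ∀ x, tnorm (x - z) ≤ r → b x = b z) → VL A (wS w b g)
  ward : ∀ (Λ : Finset (Tor L)) (W : WFun G β Λ) (b : Tor L → ℝ) (A₁ A₂ : Set (Tor L))
    (F₁ F₂ : Alg (Tor L)) (g : Fin 3), Loc A₁ F₁ → Loc A₂ F₂ →
    (∀ z ∈ A₁, ∀ x, tnorm (x - z) ≤ r → b x = 1) →
    (∀ z ∈ A₂, ∀ x, tnorm (x - z) ≤ r → b x = 0) →
    (∀ x, b x ≠ 0 → ∀ z, tnorm (z - x) ≤ r → z ∈ Λ) →
    W.E (wS w b g * (F₁ * F₂)) = W.E (R (fun _ => 1) g F₁ * F₂)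

/-- second moment bounds for the renormalised scores of Lipschitz functions, with a constant
which does not depend on the functional -/
def NB (G : Gr (Tor L) ι) (β : ℝ) (w : Tor L → Fin 3 → Alg (Tor L)) (r κ : ℝ) : Prop :=
  ∀ (Λ : Finset (Tor L)) (W : WFun G β Λ) (b : Tor L → ℝ) (a : Tor L) (t lam : ℝ) (g : Fin 3),
    r ≤ t → 0 ≤ lam → (∀ x y, |b x - b y| ≤ lam * tnorm (x - y)) →
    (∀ x, b x ≠ 0 → tnorm (x - a) ≤ t) → (∀ z, tnorm (z - a) ≤ t + r → z ∈ Λ) →
    W.E (wS w b g ^ 2) ≤ κ * (lam * t) ^ 2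

/-! ### linearity -/

theorem wS_add (w : Tor L → Fin 3 → Alg (Tor L)) (b c : Tor L → ℝ) (g : Fin 3) :
    wS w (fun x => b x + c x) g = wS w b g + wS w c g := by
  unfold wS
  rw [← Finset.sum_add_distrib]
  exact Finset.sum_congr rfl fun x _ => add_smul _ _ _

theorem wS_sub (w : Tor L → Fin 3 → Alg (Tor L)) (b c : Tor L → ℝ) (g : Fin 3) :
    wS w (fun x => b x - c x) g = wS w b g - wS w c g := by
  unfold wS
  rw [← Finset.sum_sub_distrib]
  exact Finset.sum_congr rfl fun x _ => sub_smul _ _ _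

theorem wS_smul (w : Tor L → Fin 3 → Alg (Tor L)) (c : ℝ) (b : Tor L → ℝ) (g : Fin 3) :
    wS w (fun x => c * b x) g = c • wS w b g := by
  unfold wS
  rw [Finset.smul_sum]
  exact Finset.sum_congr rfl fun x _ => by rw [mul_smul]

theorem wS_zero (w : Tor L → Fin 3 → Alg (Tor L)) (g : Fin 3) :
    wS w (fun _ => 0) g = 0 := by
  unfold wS
  exact Finset.sum_eq_zero fun x _ => zero_smul _ _

theorem wS_sum {α : Type} (w : Tor L → Fin 3 → Alg (Tor L)) (I : Finset α)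
    (b : α → Tor L → ℝ) (g : Fin 3) :
    wS w (fun x => ∑ a ∈ I, b a x) g = ∑ a ∈ I, wS w (b a) g := by
  unfold wS
  rw [Finset.sum_comm]
  exact Finset.sum_congr rfl fun x _ => Finset.sum_smul

theorem wS_single (w : Tor L → Fin 3 → Alg (Tor L)) (x : Tor L) (g : Fin 3) :
    wS w (Pi.single x 1) g = w x g := by
  classical
  unfold wS
  rw [Finset.sum_eq_single x]
  · rw [Pi.single_eq_same, one_smul]
  · intro y _ hy
    rw [Pi.single_eq_of_ne hy, zero_smul]
  · intro h; exact absurd (Finset.mem_univ x) h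

theorem wS_expand (w : Tor L → Fin 3 → Alg (Tor L)) (b : Tor L → ℝ) (g : Fin 3)
    (F : Alg (Tor L)) {Λ : Finset (Tor L)} {G : Gr (Tor L) ι} {β : ℝ} (W : WFun G β Λ) :
    W.E (wS w b g * F) = ∑ x, b x * W.E (w x g * F) := by
  unfold wS
  rw [Finset.sum_mul, map_sum]
  refine Finset.sum_congr rfl fun x _ => ?_
  rw [smul_mul_assoc, map_smul, smul_eq_mul]

theorem tnorm_self (x : Tor L) : tnorm (x - x) = 0 := by
  rw [sub_self]
  exact tnorm_zero

theorem tri' (x y z : Tor L) : tnorm (x - z) ≤ tnorm (x - y) + tnorm (y - z) := by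
  have h := tnorm_add_le (x - y) (y - z)
  rwa [sub_add_sub_cancel] at h

namespace ESS

variable {G : Gr (Tor L) ι} {β r : ℝ} {w : Tor L → Fin 3 → Alg (Tor L)} (hw : ESS G β r w)
include hw

theorem scov0 (b : Tor L → ℝ) (g : Fin 3) : R (fun _ => 1) g (wS w b g) = 0 := by
  unfold wS
  rw [map_sum]
  refine Finset.sum_eq_zero fun x _ => ?_
  rw [Derivation.map_smul, hw.cov0, smul_zero]

theorem scov1 (b : Tor L → ℝ) (g : Fin 3) :
    R (fun _ => 1) g (wS w b (g + 1)) = -wS w b (g + 2) := by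
  unfold wS
  rw [map_sum, ← Finset.sum_neg_distrib]
  refine Finset.sum_congr rfl fun x _ => ?_
  rw [Derivation.map_smul, hw.cov1, smul_neg]

theorem scov2 (b : Tor L → ℝ) (g : Fin 3) :
    R (fun _ => 1) g (wS w b (g + 2)) = wS w b (g + 1) := by
  unfold wS
  rw [map_sum]
  refine Finset.sum_congr rfl fun x _ => ?_
  rw [Derivation.map_smul, hw.cov2]

theorem locx (hr : 0 ≤ r) (x : Tor L) (g : Fin 3) : VL {z | tnorm (z - x) ≤ r} (w x g) := by
  classical
  rw [← wS_single w x g]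
  refine hw.loc _ _ _ ?_
  intro z hz y hy
  have h1 : y ≠ x := by
    rintro rfl
    apply hz
    show tnorm (z - y) ≤ r
    rwa [tnorm_sub_comm]
  have h2 : z ≠ x := by
    rintro rfl
    apply hz
    show tnorm (z - z) ≤ r
    rw [tnorm_self]
    exact hr
  rw [Pi.single_eq_of_ne h1, Pi.single_eq_of_ne h2]

/-- locality: the sites within `r` of the support -/
theorem locS (hr : 0 ≤ r) (b : Tor L → ℝ) (g : Fin 3) :
    VL {z | ∃ x, b x ≠ 0 ∧ tnorm (z - x) ≤ r} (wS w b g) := by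
  refine hw.loc _ _ _ ?_
  intro z hz x hx
  have h1 : b x = 0 := by
    by_contra h
    apply hz
    refine ⟨x, h, ?_⟩
    rwa [tnorm_sub_comm]
  have h2 : b z = 0 := by
    by_contra h
    apply hz
    refine ⟨z, h, ?_⟩
    rw [tnorm_self]
    exact hr
  rw [h1, h2]

variable {Λ : Finset (Tor L)} (W : WFun G β Λ)

theorem ward1 {b : Tor L → ℝ} {A : Set (Tor L)} {F : Alg (Tor L)} (g : Fin 3) (hF : Loc A F)
    (hb : ∀ z ∈ A, ∀ x, tnorm (x - z) ≤ r → b x = 1)
    (hΛ : ∀ x, b x ≠ 0 → ∀ z, tnorm (z - x) ≤ r → z ∈ Λ) :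
    W.E (wS w b g * F) = W.E (R (fun _ => 1) g F) := by
  have h := hw.ward Λ W b A ∅ F 1 g hF (Loc_one _) hb (fun z hz => absurd hz (by simp)) hΛ
  rwa [mul_one, mul_one] at h

theorem null {b : Tor L → ℝ} {A : Set (Tor L)} {F : Alg (Tor L)} (g : Fin 3) (hF : Loc A F)
    (hb : ∀ z ∈ A, ∀ x, tnorm (x - z) ≤ r → b x = 0)
    (hΛ : ∀ x, b x ≠ 0 → ∀ z, tnorm (z - x) ≤ r → z ∈ Λ) :
    W.E (wS w b g * F) = 0 := by
  have h := hw.ward Λ W b ∅ A 1 F g (Loc_one _) hF (fun z hz => absurd hz (by simp)) hb hΛ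
  rwa [one_mul, R_one_one, zero_mul, map_zero] at h

theorem wardc {b : Tor L → ℝ} {A : Set (Tor L)} {F : Alg (Tor L)} (g : Fin 3) (c : ℝ)
    (hF : Loc A F) (hb : ∀ z ∈ A, ∀ x, tnorm (x - z) ≤ r → b x = c)
    (hΛ : ∀ x, b x ≠ 0 → ∀ z, tnorm (z - x) ≤ r → z ∈ Λ) :
    W.E (wS w b g * F) = c * W.E (R (fun _ => 1) g F) := by
  by_cases hc : c = 0
  · subst hc
    rw [zero_mul]
    exact hw.null W g hF hb hΛ
  · have h := hw.ward1 W (b := fun x => c⁻¹ * b x) g hF
      (fun z hz x hx => by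
        show c⁻¹ * b x = 1
        rw [hb z hz x hx, inv_mul_cancel₀ hc])
      (fun x hx => hΛ x (right_ne_zero_of_mul hx))
    rw [wS_smul, smul_mul_assoc, map_smul, smul_eq_mul] at h
    rw [← h, ← mul_assoc, mul_inv_cancel₀ hc, one_mul]

theorem nullx {x : Tor L} {A : Set (Tor L)} {F : Alg (Tor L)} (g : Fin 3) (hF : Loc A F)
    (hA : ∀ z ∈ A, r < tnorm (x - z)) (hΛ : ∀ z, tnorm (z - x) ≤ r → z ∈ Λ) :
    W.E (w x g * F) = 0 := by
  classical
  rw [← wS_single w x g]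
  refine hw.null W g hF ?_ ?_
  · intro z hz y hy
    have : y ≠ x := by
      rintro rfl
      exact absurd hy (not_le.2 (hA z hz))
    exact Pi.single_eq_of_ne this _
  · intro y hy
    have : y = x := by
      by_contra h
      exact hy (Pi.single_eq_of_ne h _)
    rw [this]
    exact hΛ

end ESS

/-! ### the bare scores -/

theorem wS_S1 (G : Gr (Tor L) ι) (β : ℝ) (b : Tor L → ℝ) (g : Fin 3) :
    wS (S1 G β) b g = Sc G β b g := a2_Sc_sum G β b g

theorem VL_JJ (G : Gr (Tor L) ι) (β : ℝ) {A : Set (Tor L)} {v : ι → ℝ}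
    (h : ∀ e, v e ≠ 0 → G.s e ∈ A ∧ G.t e ∈ A) (g : Fin 3) : VL A (JJ G β v g) := by
  unfold JJ
  refine VL.sum fun e _ => ?_
  by_cases hv : v e = 0
  · rw [hv, mul_zero, zero_smul]
    exact Subalgebra.zero_mem _
  · obtain ⟨h1, h2⟩ := h e hv
    refine VL.smul ?_ _
    unfold cur
    exact ((VL_X h1 _).mul (VL_X h2 _)).sub ((VL_X h1 _).mul (VL_X h2 _))

theorem ESS_S1 {G : Gr (Tor L) ι} {β ρ K r : ℝ} (hG : Nice G β ρ K) (hρ : ρ ≤ r) (hr : 0 ≤ r) :
    ESS G β r (S1 G β) where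
  cov0 x g := a2_one0 G β x g
  cov1 x g := a2_one1 G β x g
  cov2 x g := a2_one2 G β x g
  loc b g A hA := by
    rw [wS_S1]
    refine VL_JJ G β ?_ g
    intro e he
    have h0 := (hG.range e).trans hρ
    have h0' : tnorm (G.s e - G.t e) ≤ r := by rwa [tnorm_sub_comm]
    constructor
    · by_contra h
      apply he
      have := hA _ h (G.t e) h0
      show b (G.t e) - b (G.s e) = 0
      linarith
    · by_contra h
      apply he
      have := hA _ h (G.s e) h0'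
      show b (G.t e) - b (G.s e) = 0
      linarith
  ward Λ W b A₁ A₂ F₁ F₂ g h1 h2 hb1 hb2 hΛ := by
    rw [wS_S1, ← W.ibpR (b := b) (fun x hx => by
      by_contra h
      exact hx (hΛ x h x (by rw [tnorm_self]; exact hr))) g (F₁ * F₂)]
    rw [Derivation.leibniz, R_congr_loc h2 (b' := fun _ => 0)
      (fun x hx => hb2 x hx x (by rw [tnorm_self]; exact hr)), R_congr_loc h1 (b' := fun _ => 1)
      (fun x hx => hb1 x hx x (by rw [tnorm_self]; exact hr))]
    rw [R_const, zero_smul, smul_zero, zero_add, smul_eq_mul, mul_comm]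

/-! ### reweighting -/

/-- the functional with the weight `P ^ 2` -/
def rew {G : Gr (Tor L) ι} {β : ℝ} {Λ Λ' : Finset (Tor L)} (W : WFun G β Λ)
    (P : Alg (Tor L)) {A : Set (Tor L)} (hP : Loc A P) (hΛ : ∀ x ∈ Λ', x ∈ Λ ∧ x ∉ A)
    (h0 : 0 < W.E (P ^ 2)) : WFun G β Λ' where
  E := (W.E (P ^ 2))⁻¹ • (W.E ∘ₗ LinearMap.mulLeft ℝ (P ^ 2))
  one := by
    simp only [LinearMap.smul_apply, LinearMap.comp_apply, LinearMap.mulLeft_apply, mul_one,
      smul_eq_mul]
    exact inv_mul_cancel₀ h0.ne'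
  pos F hF := by
    simp only [LinearMap.smul_apply, LinearMap.comp_apply, LinearMap.mulLeft_apply, smul_eq_mul]
    refine mul_nonneg (inv_nonneg.2 h0.le) (W.pos _ fun σ hσ => ?_)
    rw [map_mul, map_pow]
    exact mul_nonneg (sq_nonneg _) (hF σ hσ)
  ibp x hx g F := by
    simp only [LinearMap.smul_apply, LinearMap.comp_apply, LinearMap.mulLeft_apply, smul_eq_mul]
    congr 1
    obtain ⟨h1, h2⟩ := hΛ x hx
    have h3 := W.ibp x h1 g (P ^ 2 * F)
    have h4 : D x g (P ^ 2) = 0 := by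
      rw [pow_two, Derivation.leibniz, hP x h2 g, smul_zero, add_zero]
    rw [Derivation.leibniz, h4, smul_zero, add_zero, smul_eq_mul] at h3
    rw [h3]
    congr 1
    ring

theorem rew_E {G : Gr (Tor L) ι} {β : ℝ} {Λ Λ' : Finset (Tor L)} (W : WFun G β Λ)
    (P : Alg (Tor L)) {A : Set (Tor L)} (hP : Loc A P) (hΛ : ∀ x ∈ Λ', x ∈ Λ ∧ x ∉ A)
    (h0 : 0 < W.E (P ^ 2)) (F : Alg (Tor L)) :
    (rew W P hP hΛ h0).E F = (W.E (P ^ 2))⁻¹ * W.E (P ^ 2 * F) := rfl

/-- the product of two squares, by conditioning -/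
theorem prod_sq {G : Gr (Tor L) ι} {β : ℝ} {Λ : Finset (Tor L)} (W : WFun G β Λ)
    (Λ' : Finset (Tor L)) {P Q : Alg (Tor L)} {A : Set (Tor L)} (hP : Loc A P)
    (hΛ : ∀ x ∈ Λ', x ∈ Λ ∧ x ∉ A) {q : ℝ} (hq : ∀ W' : WFun G β Λ', W'.E (Q ^ 2) ≤ q) :
    W.E (P ^ 2 * Q ^ 2) ≤ q * W.E (P ^ 2) := by
  by_cases h0 : 0 < W.E (P ^ 2)
  · have h1 := hq (rew W P hP hΛ h0)
    rw [rew_E, inv_mul_le_iff₀ h0] at h1
    linarith
  · have h1 : W.E (P ^ 2) = 0 := le_antisymm (not_lt.1 h0) (W.sq_nonneg P)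
    have h2 := W.cs P (P * Q ^ 2)
    rw [h1, zero_mul] at h2
    have h3 : W.E (P * (P * Q ^ 2)) = 0 := by nlinarith
    have h4 : P ^ 2 * Q ^ 2 = P * (P * Q ^ 2) := by ring
    rw [h4, h3, h1, mul_zero]

end Pool.Agent.J4H66.MG
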