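import Pool.Agent.J4H66.MG.PS

/-!
# Cut-off functions
-/

set_option autoImplicit false
set_option linter.unusedSectionVars false

noncomputable section

namespace Pool.Agent.J4H66.MG

open MvPolynomial Pool.Agent.H5R2.ON Pool.Agent.H717R2.ON3 Pool.Agent.H983R2.ONJ

variable {L : ℕ} [NeZero L] {ι : Type} [Fintype ι]

/-- plateau: `1` up to the distance `ρ` of `a`, `0` beyond `2 ρ` -/
def pl (ρ : ℝ) (a x : Tor L) : ℝ := Aux493C.plat 2 ρ a x

theorem pl_one {ρ : ℝ} (hρ : 0 < ρ) {a x : Tor L} (h : tnorm (x - a) ≤ ρ) : pl ρ a x = 1 := by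
  unfold pl Aux493C.plat
  have h1 : tnorm (x - a) / ρ ≤ 1 := (div_le_one hρ).2 h
  rw [min_eq_left (by linarith)]
  norm_num

theorem pl_zero {ρ : ℝ} (hρ : 0 < ρ) {a x : Tor L} (h : 2 * ρ ≤ tnorm (x - a)) :
    pl ρ a x = 0 := by
  unfold pl Aux493C.plat
  rw [max_eq_left]
  refine (min_le_right _ _).trans ?_
  have : 2 ≤ tnorm (x - a) / ρ := by
    rw [le_div_iff₀ hρ]
    exact h
  linarith

theorem pl_supp {ρ : ℝ} (hρ : 0 < ρ) {a x : Tor L} (h : pl ρ a x ≠ 0) :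
    tnorm (x - a) ≤ 2 * ρ := Aux493C.plat_supp 2 ρ hρ a x h

theorem pl_abs (ρ : ℝ) (a x : Tor L) : |pl ρ a x| ≤ 1 := by
  unfold pl
  rw [abs_of_nonneg (Aux493C.plat_nonneg 2 ρ a x)]
  exact Aux493C.plat_le_one 2 ρ a x

theorem pl_nonneg (ρ : ℝ) (a x : Tor L) : 0 ≤ pl ρ a x := Aux493C.plat_nonneg 2 ρ a x

theorem pl_le_one (ρ : ℝ) (a x : Tor L) : pl ρ a x ≤ 1 := Aux493C.plat_le_one 2 ρ a x

theorem pl_lip {ρ : ℝ} (hρ : 0 < ρ) (a x y : Tor L) :
    |pl ρ a x - pl ρ a y| ≤ 1 / ρ * tnorm (x - y) := Aux493C.plat_lip 2 ρ hρ a x y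

/-! ### tents -/

theorem cst_pos {l : ℝ} (hl : 1 ≤ l) (hL : 2 * l < L) : 0 < cst L l := by
  obtain ⟨c, hc, h⟩ := cst_ge
  have := h L l hl hL
  have h2 : 0 < c * l ^ 2 := by positivity
  linarith

theorem th_nonneg {l : ℝ} (hl : 1 ≤ l) (hL : 2 * l < L) (a x : Tor L) : 0 ≤ th l a x :=
  div_nonneg (Aux493C.tau_nonneg l a x) (cst_pos hl hL).le

theorem th_abs {l : ℝ} (hl : 1 ≤ l) (hL : 2 * l < L) (a x : Tor L) :
    |th l a x| ≤ 1 / cst L l := by
  rw [abs_of_nonneg (th_nonneg hl hL a x)]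
  unfold th
  have h1 := Aux493C.tau_le_one l (by linarith) a x
  have h2 := cst_pos hl hL
  gcongr

theorem th_lip {l : ℝ} (hl : 1 ≤ l) (hL : 2 * l < L) (a x y : Tor L) :
    |th l a x - th l a y| ≤ 1 / (l * cst L l) * tnorm (x - y) := by
  have hcpos := cst_pos hl hL
  have hl0 : 0 < l := by linarith
  have h1 : th l a x - th l a y = (tau l a x - tau l a y) / cst L l := by
    unfold th
    ring
  rw [h1, abs_div, abs_of_pos hcpos, ← div_div, div_mul_eq_mul_div]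
  have := Aux493C.tau_lip l hl0 a x y
  gcongr

/-- the number of points in a ball of radius at least one -/
theorem card_ball_sq : ∃ K : ℝ, 0 < K ∧ ∀ (L : ℕ) [NeZero L] (a : Tor L) (r : ℝ), 1 ≤ r →
    ((ball a r).card : ℝ) ≤ K * r ^ 2 := by
  obtain ⟨K, hK, h⟩ := ball_card
  refine ⟨4 * K, by positivity, ?_⟩
  intro L _ a r hr
  refine (h L a r (by linarith)).trans ?_
  have h1 : (1 + r) ^ 2 ≤ 4 * r ^ 2 := by nlinarith
  calc K * (1 + r) ^ 2 ≤ K * (4 * r ^ 2) := mul_le_mul_of_nonneg_left h1 hK.le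
    _ = _ := by ring

/-! ### averages of almost orthogonal elements -/

section avg

variable {G : Gr (Tor L) ι} {β : ℝ} {Λ : Finset (Tor L)} (W : WFun G β Λ)

theorem avg_sq {n : ℕ} (hn : 0 < n) (U : ℕ → Alg (Tor L)) {C₁ C₂ : ℝ} (hC₂ : 0 ≤ C₂)
    (h1 : ∀ i < n, W.E (U i ^ 2) ≤ C₁) (h2 : ∀ i < n, ∀ j < n, i < j → W.E (U j * U i) ≤ C₂) :
    W.E (((1 / (n : ℝ)) • ∑ j ∈ Finset.range n, U j) ^ 2) ≤ C₁ / n + C₂ := by
  have hn' : (0 : ℝ) < n := by exact_mod_cast hn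
  have e1 : ((1 / (n : ℝ)) • ∑ j ∈ Finset.range n, U j) ^ 2 =
      ((1 / (n : ℝ)) ^ 2) • ∑ i ∈ Finset.range n, ∑ j ∈ Finset.range n, U i * U j := by
    rw [smul_pow, sq (∑ j ∈ Finset.range n, U j), Finset.sum_mul_sum]
  rw [e1, map_smul, map_sum]
  simp only [map_sum, smul_eq_mul]
  have h3 : ∀ i ∈ Finset.range n, ∑ j ∈ Finset.range n, W.E (U i * U j) ≤ C₁ + n * C₂ := by
    intro i hi
    have hi' := Finset.mem_range.1 hi
    have h4 : ∀ j ∈ Finset.range n, W.E (U i * U j) ≤ (if j = i then C₁ else 0) + C₂ := by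
      intro j hj
      have hj' := Finset.mem_range.1 hj
      split_ifs with h
      · subst h
        rw [← pow_two]
        linarith [h1 j hj']
      · rw [zero_add]
        rcases lt_or_gt_of_ne h with h5 | h5
        · exact h2 j hj' i hi' h5
        · rw [mul_comm]
          exact h2 i hi' j hj' h5
    refine (Finset.sum_le_sum h4).trans ?_
    rw [Finset.sum_add_distrib, Finset.sum_ite_eq' (Finset.range n) i, if_pos hi,
      Finset.sum_const, Finset.card_range, nsmul_eq_mul]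
  calc (1 / (n : ℝ)) ^ 2 * ∑ i ∈ Finset.range n, ∑ j ∈ Finset.range n, W.E (U i * U j)
      ≤ (1 / (n : ℝ)) ^ 2 * ∑ i ∈ Finset.range n, (C₁ + n * C₂) :=
        mul_le_mul_of_nonneg_left (Finset.sum_le_sum h3) (by positivity)
    _ = C₁ / n + C₂ := by
        rw [Finset.sum_const, Finset.card_range, nsmul_eq_mul]
        field_simp

end avg

/-! ### logarithmic cut-off functions -/

/-- logarithmic cut-off function with `n` scales -/
def lc (n : ℕ) (ρ : ℝ) (a x : Tor L) : ℝ :=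
  (1 / (n : ℝ)) * ∑ j ∈ Finset.range n, pl (16 ^ j * ρ) a x

theorem pow16_ge (j : ℕ) {ρ : ℝ} (hρ : 0 < ρ) : ρ ≤ 16 ^ j * ρ := by
  have h : (1 : ℝ) ≤ 16 ^ j := one_le_pow₀ (by norm_num)
  nlinarith

theorem lc_one {n : ℕ} (hn : 0 < n) {ρ : ℝ} (hρ : 0 < ρ) {a x : Tor L}
    (h : tnorm (x - a) ≤ ρ) : lc n ρ a x = 1 := by
  unfold lc
  have hn' : (n : ℝ) ≠ 0 := by positivity
  rw [Finset.sum_congr rfl fun j _ => pl_one (by positivity) (h.trans (pow16_ge j hρ)),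
    Finset.sum_const, Finset.card_range, nsmul_eq_mul, mul_one]
  field_simp

theorem lc_zero {n : ℕ} {ρ : ℝ} (hρ : 0 < ρ) {a x : Tor L}
    (h : 16 ^ n * ρ ≤ tnorm (x - a)) : lc n ρ a x = 0 := by
  unfold lc
  rw [Finset.sum_eq_zero, mul_zero]
  intro j hj
  refine pl_zero (by positivity) ?_
  have h1 : (16 : ℝ) ^ (j + 1) ≤ 16 ^ n :=
    pow_le_pow_right₀ (by norm_num) (Finset.mem_range.1 hj)
  have h2 : (16 : ℝ) ^ (j + 1) * ρ ≤ 16 ^ n * ρ := mul_le_mul_of_nonneg_right h1 hρ.le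
  rw [pow_succ] at h2
  have h3 : (0 : ℝ) < 16 ^ j * ρ := by positivity
  linarith

theorem wS_lc (w : Tor L → Fin 3 → Alg (Tor L)) (n : ℕ) (ρ : ℝ) (a : Tor L) (g : Fin 3) :
    wS w (lc n ρ a) g = (1 / (n : ℝ)) • ∑ j ∈ Finset.range n, wS w (pl (16 ^ j * ρ) a) g := by
  have h : lc n ρ a = fun x => (1 / (n : ℝ)) * ∑ j ∈ Finset.range n, pl (16 ^ j * ρ) a x := rfl
  rw [h, wS_smul, wS_sum w (Finset.range n) (fun j => pl (16 ^ j * ρ) a)]

theorem lc_sq {G : Gr (Tor L) ι} {β r κ : ℝ} {w : Tor L → Fin 3 → Alg (Tor L)}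
    (hw : ESS G β r w) (hN : NB G β w r κ) (hr : 0 < r) {n : ℕ} (hn : 0 < n)
    {ρ : ℝ} (hρ : r ≤ ρ) {Λ : Finset (Tor L)} (W : WFun G β Λ) (a : Tor L)
    (hΛ : ∀ z, tnorm (z - a) ≤ 16 ^ n * ρ → z ∈ Λ) (g : Fin 3) :
    W.E (wS w (lc n ρ a) g ^ 2) ≤ 4 * κ / n := by
  have hρ0 : 0 < ρ := by linarith
  rw [wS_lc]
  have hj0 : ∀ j : ℕ, ρ ≤ 16 ^ j * ρ := fun j => pow16_ge j hρ0
  have hjn : ∀ j < n, 16 * (16 ^ j * ρ) ≤ 16 ^ n * ρ := by
    intro j hj
    have h1 : (16 : ℝ) ^ (j + 1) ≤ 16 ^ n := pow_le_pow_right₀ (by norm_num) hj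
    have h2 : (16 : ℝ) ^ (j + 1) * ρ ≤ 16 ^ n * ρ := mul_le_mul_of_nonneg_right h1 hρ0.le
    rw [pow_succ] at h2
    linarith
  have h := avg_sq W hn (fun j => wS w (pl (16 ^ j * ρ) a) g) (C₁ := 4 * κ) (C₂ := 0) le_rfl
    ?_ ?_
  · rw [add_zero] at h
    exact h
  · intro j hj
    have h0 := hj0 j
    have h1 := hjn j hj
    have hp : 0 < 16 ^ j * ρ := by linarith
    refine (hN Λ W _ a (2 * (16 ^ j * ρ)) (1 / (16 ^ j * ρ)) g (by linarith) (by positivity)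
      (pl_lip hp a) (fun x hx => pl_supp hp hx) ?_).trans (le_of_eq ?_)
    · intro z hz
      exact hΛ z (by linarith)
    · field_simp
      ring
  · intro i hi j hj hij
    have h0 := hj0 i
    have hp : 0 < 16 ^ i * ρ := by linarith
    have h1 := hjn j hj
    have hp' : 0 < 16 ^ j * ρ := by positivity
    have h2 : 16 * (16 ^ i * ρ) ≤ 16 ^ j * ρ := by
      have h1 : (16 : ℝ) ^ (i + 1) ≤ 16 ^ j := pow_le_pow_right₀ (by norm_num) hij
      have h2 : (16 : ℝ) ^ (i + 1) * ρ ≤ 16 ^ j * ρ := mul_le_mul_of_nonneg_right h1 hρ0.le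
      rw [pow_succ] at h2
      linarith
    refine le_of_eq ?_
    rw [hw.ward1 W (A := {z | ∃ x, pl (16 ^ i * ρ) a x ≠ 0 ∧ tnorm (z - x) ≤ r}) g
      (wS_VL_sets hw hr.le _ g) ?_ ?_, hw.scov0, map_zero]
    · rintro z ⟨y, hy, hz⟩ x hx
      have h3 := pl_supp hp hy
      refine pl_one hp' ?_
      have h4 := tri' x z a
      have h5 := tri' z y a
      linarith
    · intro x hx z hz
      have h3 := pl_supp hp' hx
      refine hΛ z ?_
      have h4 := tri' z x a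
      linarith

/-- the score of the logarithmic cut-off function is local outside the ball of radius `ρ - r` -/
theorem lc_loc {G : Gr (Tor L) ι} {β r : ℝ} {w : Tor L → Fin 3 → Alg (Tor L)}
    (hw : ESS G β r w) (hr : 0 ≤ r) {n : ℕ} (hn : 0 < n) {ρ : ℝ} (hρ : 0 < ρ) (a : Tor L)
    (g : Fin 3) : VL {z | ρ - r < tnorm (z - a)} (wS w (lc n ρ a) g) := by
  refine hw.loc _ g _ ?_
  intro z hz x hx
  have hz' : tnorm (z - a) ≤ ρ - r := not_lt.1 hz
  rw [lc_one hn hρ, lc_one hn hρ]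
  · linarith
  · have := tri' x z a
    linarith

end Pool.Agent.J4H66.MG
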