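import Pool.Agent.J4H66.MG.Basic

/-!
# Point splitting of renormalised scores
-/

set_option autoImplicit false
set_option linter.unusedSectionVars false

noncomputable section

namespace Pool.Agent.J4H66.MG

open MvPolynomial Pool.Agent.H5R2.ON Pool.Agent.H717R2.ON3 Pool.Agent.H983R2.ONJ

variable {L : ℕ} [NeZero L] {ι : Type} [Fintype ι]

/-- the point split scores -/
def pw (w : Tor L → Fin 3 → Alg (Tor L)) (m : Tor L → Tor L → ℝ) (z : Tor L) (g : Fin 3) :
    Alg (Tor L) :=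
  ∑ x, m z x • (w z (g + 1) * w x (g + 2) - w x (g + 1) * w z (g + 2))

/-- bilinear expression with kernel `k` -/
def Uk (w : Tor L → Fin 3 → Alg (Tor L)) (k : Tor L → Tor L → ℝ) (g : Fin 3) : Alg (Tor L) :=
  ∑ x, ∑ y, k x y • (w x (g + 1) * w y (g + 2))

/-- cut-off kernels: `1` up to the distance `l₁`, `0` beyond the distance `l₂` -/
structure Ker (m : Tor L → Tor L → ℝ) (l₁ l₂ : ℝ) : Prop where
  sym : ∀ x y, m x y = m y x
  one : ∀ x y, tnorm (x - y) ≤ l₁ → m x y = 1
  zero : ∀ x y, l₂ < tnorm (x - y) → m x y = 0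

theorem wS_pw (w : Tor L → Fin 3 → Alg (Tor L)) {m : Tor L → Tor L → ℝ}
    (hm : ∀ x y, m x y = m y x) (b : Tor L → ℝ) (g : Fin 3) :
    wS (pw w m) b g = Uk w (fun x y => (b x - b y) * m x y) g := by
  unfold wS pw Uk
  have h1 : ∀ z, b z • ∑ x, m z x • (w z (g + 1) * w x (g + 2) - w x (g + 1) * w z (g + 2)) =
      ∑ x, (b z * m z x) • (w z (g + 1) * w x (g + 2)) -
        ∑ x, (b z * m z x) • (w x (g + 1) * w z (g + 2)) := by
    intro z
    rw [Finset.smul_sum, ← Finset.sum_sub_distrib]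
    refine Finset.sum_congr rfl fun x _ => ?_
    rw [smul_smul, smul_sub]
  rw [Finset.sum_congr rfl fun z _ => h1 z, Finset.sum_sub_distrib]
  have h2 : ∑ z, ∑ x, (b z * m z x) • (w x (g + 1) * w z (g + 2)) =
      ∑ x, ∑ y, (b y * m x y) • (w x (g + 1) * w y (g + 2)) := by
    rw [Finset.sum_comm]
    refine Finset.sum_congr rfl fun x _ => Finset.sum_congr rfl fun y _ => ?_
    rw [hm x y]
  rw [h2, ← Finset.sum_sub_distrib]
  refine Finset.sum_congr rfl fun x _ => ?_
  rw [← Finset.sum_sub_distrib]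
  refine Finset.sum_congr rfl fun y _ => ?_
  show _ = ((b x - b y) * m x y) • _
  rw [← sub_smul, sub_mul]

theorem Uk_prod (w : Tor L → Fin 3 → Alg (Tor L)) (u v : Tor L → ℝ) (g : Fin 3) :
    Uk w (fun x y => u x * v y) g = wS w u (g + 1) * wS w v (g + 2) := by
  unfold Uk wS
  rw [Finset.sum_mul_sum]
  refine Finset.sum_congr rfl fun x _ => Finset.sum_congr rfl fun y _ => ?_
  rw [smul_mul_smul_comm]

theorem Uk_sub (w : Tor L → Fin 3 → Alg (Tor L)) (k k' : Tor L → Tor L → ℝ) (g : Fin 3) :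
    Uk w (fun x y => k x y - k' x y) g = Uk w k g - Uk w k' g := by
  unfold Uk
  rw [← Finset.sum_sub_distrib]
  refine Finset.sum_congr rfl fun x _ => ?_
  rw [← Finset.sum_sub_distrib]
  exact Finset.sum_congr rfl fun y _ => sub_smul _ _ _

theorem Uk_add (w : Tor L → Fin 3 → Alg (Tor L)) (k k' : Tor L → Tor L → ℝ) (g : Fin 3) :
    Uk w (fun x y => k x y + k' x y) g = Uk w k g + Uk w k' g := by
  unfold Uk
  rw [← Finset.sum_add_distrib]
  refine Finset.sum_congr rfl fun x _ => ?_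
  rw [← Finset.sum_add_distrib]
  exact Finset.sum_congr rfl fun y _ => add_smul _ _ _

theorem Uk_smul (w : Tor L → Fin 3 → Alg (Tor L)) (c : ℝ) (k : Tor L → Tor L → ℝ) (g : Fin 3) :
    Uk w (fun x y => c * k x y) g = c • Uk w k g := by
  unfold Uk
  rw [Finset.smul_sum]
  refine Finset.sum_congr rfl fun x _ => ?_
  rw [Finset.smul_sum]
  exact Finset.sum_congr rfl fun y _ => mul_smul _ _ _

theorem Uk_sum {α : Type} (w : Tor L → Fin 3 → Alg (Tor L)) (I : Finset α)
    (k : α → Tor L → Tor L → ℝ) (g : Fin 3) :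
    Uk w (fun x y => ∑ a ∈ I, k a x y) g = ∑ a ∈ I, Uk w (k a) g := by
  classical
  induction I using Finset.induction_on with
  | empty => simp [Uk]
  | insert a s ha ih =>
    simp only [Finset.sum_insert ha]
    rw [Uk_add, ih]

theorem Uk_expand {G : Gr (Tor L) ι} {β : ℝ} {Λ : Finset (Tor L)} (W : WFun G β Λ)
    (w : Tor L → Fin 3 → Alg (Tor L)) (k : Tor L → Tor L → ℝ) (g : Fin 3) (F : Alg (Tor L)) :
    W.E (Uk w k g * F) = ∑ x, ∑ y, k x y * W.E (w x (g + 1) * w y (g + 2) * F) := by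
  unfold Uk
  rw [Finset.sum_mul, map_sum]
  refine Finset.sum_congr rfl fun x _ => ?_
  rw [Finset.sum_mul, map_sum]
  refine Finset.sum_congr rfl fun y _ => ?_
  rw [smul_mul_assoc, map_smul, smul_eq_mul]

theorem Uk_congr {G : Gr (Tor L) ι} {β r : ℝ} {w : Tor L → Fin 3 → Alg (Tor L)}
    (hw : ESS G β r w) (hr : 0 ≤ r) {Λ : Finset (Tor L)} (W : WFun G β Λ)
    {k k' : Tor L → Tor L → ℝ} {A : Set (Tor L)} {F : Alg (Tor L)} (g : Fin 3) (hF : Loc A F)
    (hk : ∀ x y, k x y ≠ k' x y → 2 * r < tnorm (x - y) ∧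
      ((∀ z ∈ A, r < tnorm (x - z)) ∨ (∀ z ∈ A, r < tnorm (y - z))) ∧
      (∀ z, tnorm (z - x) ≤ r → z ∈ Λ) ∧ (∀ z, tnorm (z - y) ≤ r → z ∈ Λ)) :
    W.E (Uk w k g * F) = W.E (Uk w k' g * F) := by
  rw [Uk_expand, Uk_expand]
  refine Finset.sum_congr rfl fun x _ => Finset.sum_congr rfl fun y _ => ?_
  by_cases h : k x y = k' x y
  · rw [h]
  · obtain ⟨h1, h2, h3, h4⟩ := hk x y h
    have h0 : W.E (w x (g + 1) * w y (g + 2) * F) = 0 := by
      rcases h2 with h2 | h2
      · rw [mul_assoc]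
        refine hw.nullx W (x := x) (A := {z | tnorm (z - y) ≤ r} ∪ A) (g + 1) ?_ ?_ h3
        · exact Loc.mul (((hw.locx hr y (g + 2)).loc).mono Set.subset_union_left)
            (hF.mono Set.subset_union_right)
        · rintro z (hz | hz)
          · have := tri' x z y
            have hz' : tnorm (z - y) ≤ r := hz
            linarith
          · exact h2 z hz
      · rw [mul_comm (w x (g + 1)), mul_assoc]
        refine hw.nullx W (x := y) (A := {z | tnorm (z - x) ≤ r} ∪ A) (g + 2) ?_ ?_ h4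
        · exact Loc.mul (((hw.locx hr x (g + 1)).loc).mono Set.subset_union_left)
            (hF.mono Set.subset_union_right)
        · rintro z (hz | hz)
          · have := tri' x z y
            have hz' : tnorm (z - x) ≤ r := hz
            rw [tnorm_sub_comm z x] at hz'
            rw [tnorm_sub_comm y z]
            linarith
          · exact h2 z hz
    rw [h0, mul_zero, mul_zero]

/-! ### the Ward identity of the new scores -/

theorem R_lie1 (g : Fin 3) (F : Alg (Tor L)) :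
    R (fun _ => 1) (g + 2) (R (fun _ => 1) (g + 1) F) =
      R (fun _ => 1) (g + 1) (R (fun _ => 1) (g + 2) F) + R (fun _ => 1) g F :=
  R_one_comm (fun _ => 1) g F

theorem wS_VL_sets {G : Gr (Tor L) ι} {β r : ℝ} {w : Tor L → Fin 3 → Alg (Tor L)}
    (hw : ESS G β r w) (hr : 0 ≤ r) (b : Tor L → ℝ) (g : Fin 3) :
    Loc {z | ∃ x, b x ≠ 0 ∧ tnorm (z - x) ≤ r} (wS w b g) := (hw.locS hr b g).loc

/-- the part common to the Ward identity and to the identity for two scales -/
theorem two_ward {G : Gr (Tor L) ι} {β r : ℝ} {w : Tor L → Fin 3 → Alg (Tor L)}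
    (hw : ESS G β r w) {Λ : Finset (Tor L)} (W : WFun G β Λ)
    {b η : Tor L → ℝ} {A₁ A₂ : Set (Tor L)} {F₁ F₂ : Alg (Tor L)} (hr : 0 ≤ r)
    (g : Fin 3) (h1 : Loc A₁ F₁) (h2 : Loc A₂ F₂)
    (hη1 : ∀ x, (∃ x', b x' ≠ 0 ∧ tnorm (x - x') ≤ 2 * r) → η x = 1)
    (hη2 : ∀ z ∈ A₁, ∀ x, tnorm (x - z) ≤ r → η x = 1)
    (hη3 : ∀ z ∈ A₂, ∀ x, tnorm (x - z) ≤ r → η x = 0)
    (hη4 : ∀ x, η x ≠ 0 → ∀ z, tnorm (z - x) ≤ r → z ∈ Λ) :
    W.E (Uk w (fun x y => b x * η y - η x * b y) g * (F₁ * F₂)) =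
      2 * W.E (wS w b g * (F₁ * F₂)) + W.E (wS w b (g + 1) * (R (fun _ => 1) (g + 2) F₁ * F₂)) -
        W.E (wS w b (g + 2) * (R (fun _ => 1) (g + 1) F₁ * F₂)) := by
  have hloc : ∀ h, Loc ({z | ∃ x, b x ≠ 0 ∧ tnorm (z - x) ≤ r} ∪ A₁) (wS w b h * F₁) := fun h =>
    Loc.mul ((wS_VL_sets hw hr b h).mono Set.subset_union_left)
      (h1.mono Set.subset_union_right)
  have hη : ∀ z ∈ ({z | ∃ x, b x ≠ 0 ∧ tnorm (z - x) ≤ r} ∪ A₁ : Set (Tor L)),
      ∀ x, tnorm (x - z) ≤ r → η x = 1 := by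
    rintro z (⟨x', hx', hz⟩ | hz) x hx
    · refine hη1 x ⟨x', hx', ?_⟩
      have := tri' x z x'
      linarith
    · exact hη2 z hz x hx
  have w1 := hw.ward Λ W η _ A₂ (wS w b (g + 1) * F₁) F₂ (g + 2) (hloc (g + 1)) h2 hη hη3 hη4
  have w2 := hw.ward Λ W η _ A₂ (wS w b (g + 2) * F₁) F₂ (g + 1) (hloc (g + 2)) h2 hη hη3 hη4
  have c1 : R (fun _ => 1) (g + 2) (wS w b (g + 1)) = wS w b g := by
    have h := hw.scov2 b (g + 2)
    rwa [alg1_f22, alg1_f21] at h
  have c2 : R (fun _ => 1) (g + 1) (wS w b (g + 2)) = -wS w b g := by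
    have h := hw.scov1 b (g + 1)
    rwa [alg1_f11, alg1_f12] at h
  rw [Derivation.leibniz, c1] at w1
  rw [Derivation.leibniz, c2] at w2
  rw [Uk_sub, Uk_prod, Uk_prod, sub_mul, map_sub]
  have e1 : wS w b (g + 1) * wS w η (g + 2) * (F₁ * F₂) =
      wS w η (g + 2) * (wS w b (g + 1) * F₁ * F₂) := by ring
  have e2 : wS w η (g + 1) * wS w b (g + 2) * (F₁ * F₂) =
      wS w η (g + 1) * (wS w b (g + 2) * F₁ * F₂) := by ring
  rw [e1, e2, w1, w2]
  simp only [smul_eq_mul]
  have e3 : (wS w b (g + 1) * R (fun _ => 1) (g + 2) F₁ + F₁ * wS w b g) * F₂ =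
      wS w b (g + 1) * (R (fun _ => 1) (g + 2) F₁ * F₂) + wS w b g * (F₁ * F₂) := by ring
  have e4 : (wS w b (g + 2) * R (fun _ => 1) (g + 1) F₁ + F₁ * -wS w b g) * F₂ =
      wS w b (g + 2) * (R (fun _ => 1) (g + 1) F₁ * F₂) - wS w b g * (F₁ * F₂) := by ring
  rw [e3, e4, map_add, map_sub]
  ring

theorem ESS_pw {G : Gr (Tor L) ι} {β r r' l₁ l₂ : ℝ} {w : Tor L → Fin 3 → Alg (Tor L)}
    {m : Tor L → Tor L → ℝ} (hw : ESS G β r w) (hr : 0 ≤ r) (hm : Ker m l₁ l₂)
    (hl₁ : 2 * r ≤ l₁) (hl₂ : 0 ≤ l₂) (hr' : l₂ + 3 * r ≤ r') : ESS G β r' (pw w m) where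
  cov0 z g := by
    unfold pw
    rw [map_sum]
    refine Finset.sum_eq_zero fun x _ => ?_
    rw [Derivation.map_smul, map_sub, Derivation.leibniz, Derivation.leibniz, hw.cov1, hw.cov1,
      hw.cov2, hw.cov2]
    simp only [smul_eq_mul]
    have : (w z (g + 1) * w x (g + 1) + w x (g + 2) * -w z (g + 2) -
        (w x (g + 1) * w z (g + 1) + w z (g + 2) * -w x (g + 2)) : Alg (Tor L)) = 0 := by ring
    rw [this, smul_zero]
  cov1 z g := by
    unfold pw
    rw [map_sum, ← Finset.sum_neg_distrib]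
    refine Finset.sum_congr rfl fun x _ => ?_
    rw [alg1_f11, alg1_f12, alg1_f21, alg1_f22, Derivation.map_smul, map_sub,
      Derivation.leibniz, Derivation.leibniz, hw.cov0, hw.cov0, hw.cov2, hw.cov2, ← smul_neg]
    simp only [smul_eq_mul]
    congr 1
    ring
  cov2 z g := by
    unfold pw
    rw [map_sum]
    refine Finset.sum_congr rfl fun x _ => ?_
    rw [alg1_f11, alg1_f12, alg1_f21, alg1_f22, Derivation.map_smul, map_sub,
      Derivation.leibniz, Derivation.leibniz, hw.cov0, hw.cov0, hw.cov1, hw.cov1]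
    simp only [smul_eq_mul]
    congr 1
    ring
  loc b g A hA := by
    rw [wS_pw w hm.sym]
    unfold Uk
    refine VL.sum fun x _ => VL.sum fun y _ => ?_
    by_cases h : (b x - b y) * m x y = 0
    · show VL A (((b x - b y) * m x y) • _)
      rw [h, zero_smul]
      exact Subalgebra.zero_mem _
    · have hb : b x ≠ b y := fun h' => left_ne_zero_of_mul h (by rw [h', sub_self])
      have hd : tnorm (x - y) ≤ l₂ := by
        by_contra h'
        exact right_ne_zero_of_mul h (hm.zero x y (not_le.1 h'))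
      refine VL.smul (VL.mul ((hw.locx hr x _).mono ?_) ((hw.locx hr y _).mono ?_)) _
      · intro z hz
        have hz' : tnorm (z - x) ≤ r := hz
        by_contra hzA
        rw [tnorm_sub_comm] at hz'
        apply hb
        rw [hA z hzA x (by linarith), hA z hzA y ?_]
        have := tri' y x z
        rw [tnorm_sub_comm y x] at this
        linarith
      · intro z hz
        have hz' : tnorm (z - y) ≤ r := hz
        by_contra hzA
        rw [tnorm_sub_comm] at hz'
        apply hb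
        rw [hA z hzA y (by linarith), hA z hzA x ?_]
        have := tri' x y z
        linarith
  ward Λ W b A₁ A₂ F₁ F₂ g h1 h2 hb1 hb2 hΛ := by
    classical
    rw [wS_pw w hm.sym]
    set η : Tor L → ℝ := fun x => if ∃ x', b x' ≠ 0 ∧ tnorm (x - x') ≤ 2 * r then 1 else 0
      with hη
    have hη1 : ∀ x, (∃ x', b x' ≠ 0 ∧ tnorm (x - x') ≤ 2 * r) → η x = 1 := fun x hx => if_pos hx
    have hηs : ∀ x, b x ≠ 0 → η x = 1 := fun x hx => hη1 x ⟨x, hx, by
      rw [tnorm_self]; linarith⟩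
    have hη0 : ∀ x, η x ≠ 0 → ∃ x', b x' ≠ 0 ∧ tnorm (x - x') ≤ 2 * r := by
      intro x hx
      by_contra h
      exact hx (if_neg h)
    have hη2 : ∀ z ∈ A₁, ∀ x, tnorm (x - z) ≤ r → η x = 1 := by
      intro z hz x hx
      refine hηs x ?_
      rw [hb1 z hz x (by linarith)]
      exact one_ne_zero
    have hη3 : ∀ z ∈ A₂, ∀ x, tnorm (x - z) ≤ r → η x = 0 := by
      intro z hz x hx
      by_contra h
      obtain ⟨x', hx', hxx⟩ := hη0 x h
      apply hx'
      refine hb2 z hz x' ?_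
      have := tri' x' x z
      rw [tnorm_sub_comm x' x] at this
      linarith
    have hη4 : ∀ x, η x ≠ 0 → ∀ z, tnorm (z - x) ≤ r → z ∈ Λ := by
      intro x hx z hz
      obtain ⟨x', hx', hxx⟩ := hη0 x hx
      refine hΛ x' hx' z ?_
      have := tri' z x x'
      linarith
    have hcong : W.E (Uk w (fun x y => (b x - b y) * m x y) g * (F₁ * F₂)) =
        W.E (Uk w (fun x y => b x * η y - η x * b y) g * (F₁ * F₂)) := by
      refine Uk_congr hw hr W (A := A₁ ∪ A₂) g
        (Loc.mul (h1.mono Set.subset_union_left) (h2.mono Set.subset_union_right)) ?_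
      intro x y hxy
      refine ⟨?_, ?_, ?_⟩
      · by_contra h
        push Not at h
        apply hxy
        rw [hm.one x y (by linarith), mul_one]
        have e1 : b x * η y = b x := by
          by_cases hbx : b x = 0
          · rw [hbx, zero_mul]
          · rw [hη1 y ⟨x, hbx, by rwa [tnorm_sub_comm]⟩, mul_one]
        have e2 : η x * b y = b y := by
          by_cases hby : b y = 0
          · rw [hby, mul_zero]
          · rw [hη1 x ⟨y, hby, h⟩, one_mul]
        rw [e1, e2]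
      · by_contra h
        push Not at h
        obtain ⟨⟨z₁, hz₁, hx⟩, ⟨z₂, hz₂, hy⟩⟩ := h
        apply hxy
        rcases hz₁ with hz₁ | hz₁ <;> rcases hz₂ with hz₂ | hz₂
        · rw [hb1 z₁ hz₁ x (by linarith), hb1 z₂ hz₂ y (by linarith), hη2 z₁ hz₁ x hx,
            hη2 z₂ hz₂ y hy]
          ring
        · have e1 : m x y = 0 := by
            by_contra hmm
            have hd : tnorm (x - y) ≤ l₂ := by
              by_contra h'
              exact hmm (hm.zero x y (not_le.1 h'))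
            have e2 := hb2 z₂ hz₂ x (by
              have := tri' x y z₂
              linarith)
            rw [hb1 z₁ hz₁ x (by linarith)] at e2
            exact one_ne_zero e2
          rw [e1, hη3 z₂ hz₂ y hy, hb2 z₂ hz₂ y (by linarith)]
          ring
        · have e1 : m x y = 0 := by
            by_contra hmm
            have hd : tnorm (x - y) ≤ l₂ := by
              by_contra h'
              exact hmm (hm.zero x y (not_le.1 h'))
            have e2 := hb2 z₁ hz₁ y (by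
              have := tri' y x z₁
              rw [tnorm_sub_comm y x] at this
              linarith)
            rw [hb1 z₂ hz₂ y (by linarith)] at e2
            exact one_ne_zero e2
          rw [e1, hη3 z₁ hz₁ x hx, hb2 z₁ hz₁ x (by linarith)]
          ring
        · rw [hb2 z₁ hz₁ x (by linarith), hb2 z₂ hz₂ y (by linarith)]
          ring
      · by_cases hk : (b x - b y) * m x y = 0
        · have hk' : b x * η y - η x * b y ≠ 0 := by
            intro h'
            apply hxy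
            rw [hk, h']
          have hk2 : b x * η y ≠ 0 ∨ η x * b y ≠ 0 := by
            by_contra h'
            push Not at h'
            exact hk' (by rw [h'.1, h'.2, sub_zero])
          have key : ∀ x y, b x ≠ 0 → η y ≠ 0 → (∀ z, tnorm (z - x) ≤ r → z ∈ Λ) ∧
              (∀ z, tnorm (z - y) ≤ r → z ∈ Λ) := by
            intro x y hx hy
            exact ⟨fun z hz => hΛ x hx z (by linarith), hη4 y hy⟩
          rcases hk2 with h' | h'
          · exact key x y (left_ne_zero_of_mul h') (right_ne_zero_of_mul h')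
          · exact (key y x (right_ne_zero_of_mul h') (left_ne_zero_of_mul h')).symm
        · have hd : tnorm (x - y) ≤ l₂ := by
            by_contra h'
            exact right_ne_zero_of_mul hk (hm.zero x y (not_le.1 h'))
          have hbb : b x ≠ 0 ∨ b y ≠ 0 := by
            by_contra h'
            push Not at h'
            exact hk (by rw [h'.1, h'.2, sub_self, zero_mul])
          rcases hbb with h' | h'
          · refine ⟨fun z hz => hΛ x h' z (by linarith), fun z hz => hΛ x h' z ?_⟩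
            have := tri' z y x
            rw [tnorm_sub_comm y x] at this
            linarith
          · refine ⟨fun z hz => hΛ y h' z ?_, fun z hz => hΛ y h' z (by linarith)⟩
            have := tri' z x y
            linarith
    rw [hcong, two_ward hw W hr g h1 h2 hη1 hη2 hη3 hη4]
    have hbr : ∀ z ∈ A₁, ∀ x, tnorm (x - z) ≤ r → b x = 1 := fun z hz x hx =>
      hb1 z hz x (by linarith)
    have hbr2 : ∀ z ∈ A₂, ∀ x, tnorm (x - z) ≤ r → b x = 0 := fun z hz x hx =>
      hb2 z hz x (by linarith)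
    have hbr3 : ∀ x, b x ≠ 0 → ∀ z, tnorm (z - x) ≤ r → z ∈ Λ := fun x hx z hz =>
      hΛ x hx z (by linarith)
    rw [hw.ward Λ W b A₁ A₂ F₁ F₂ g h1 h2 hbr hbr2 hbr3,
      hw.ward Λ W b A₁ A₂ (R (fun _ => 1) (g + 2) F₁) F₂ (g + 1) (Loc_R h1 _ _) h2 hbr hbr2 hbr3,
      hw.ward Λ W b A₁ A₂ (R (fun _ => 1) (g + 1) F₁) F₂ (g + 2) (Loc_R h1 _ _) h2 hbr hbr2 hbr3,
      R_lie1, add_mul, map_add]
    ring

/-- monotonicity in the range -/
theorem ESS.mono {G : Gr (Tor L) ι} {β r r' : ℝ} {w : Tor L → Fin 3 → Alg (Tor L)}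
    (hw : ESS G β r w) (h : r ≤ r') : ESS G β r' w where
  cov0 := hw.cov0
  cov1 := hw.cov1
  cov2 := hw.cov2
  loc b g A hA := hw.loc b g A fun z hz x hx => hA z hz x (hx.trans h)
  ward Λ W b A₁ A₂ F₁ F₂ g h1 h2 hb1 hb2 hΛ := hw.ward Λ W b A₁ A₂ F₁ F₂ g h1 h2
    (fun z hz x hx => hb1 z hz x (hx.trans h)) (fun z hz x hx => hb2 z hz x (hx.trans h))
    (fun x hx z hz => hΛ x hx z (hz.trans h))

/-- averages of renormalised scores -/
theorem ESS_avg {G : Gr (Tor L) ι} {β r : ℝ} {n : ℕ} (hn : 0 < n)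
    (w : ℕ → Tor L → Fin 3 → Alg (Tor L)) (hw : ∀ i < n, ESS G β r (w i)) :
    ESS G β r (fun x g => (1 / (n : ℝ)) • ∑ i ∈ Finset.range n, w i x g) := by
  have hn' : (n : ℝ) ≠ 0 := by positivity
  have hwS : ∀ (b : Tor L → ℝ) (g : Fin 3),
      wS (fun x g => (1 / (n : ℝ)) • ∑ i ∈ Finset.range n, w i x g) b g =
        (1 / (n : ℝ)) • ∑ i ∈ Finset.range n, wS (w i) b g := by
    intro b g
    unfold wS
    rw [Finset.sum_comm, Finset.smul_sum]
    refine Finset.sum_congr rfl fun x _ => ?_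
    rw [smul_comm, Finset.smul_sum]
  refine ⟨?_, ?_, ?_, ?_, ?_⟩
  · intro x g
    rw [Derivation.map_smul, map_sum, Finset.sum_eq_zero, smul_zero]
    intro i hi
    exact (hw i (Finset.mem_range.1 hi)).cov0 x g
  · intro x g
    rw [Derivation.map_smul, map_sum, ← smul_neg, ← Finset.sum_neg_distrib]
    congr 1
    exact Finset.sum_congr rfl fun i hi => (hw i (Finset.mem_range.1 hi)).cov1 x g
  · intro x g
    rw [Derivation.map_smul, map_sum]
    congr 1
    exact Finset.sum_congr rfl fun i hi => (hw i (Finset.mem_range.1 hi)).cov2 x g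
  · intro b g A hA
    rw [hwS]
    exact VL.smul (VL.sum fun i hi => (hw i (Finset.mem_range.1 hi)).loc b g A hA) _
  · intro Λ W b A₁ A₂ F₁ F₂ g h1 h2 hb1 hb2 hΛ
    rw [hwS, smul_mul_assoc, map_smul, Finset.sum_mul, map_sum,
      Finset.sum_congr rfl fun i hi => (hw i (Finset.mem_range.1 hi)).ward Λ W b A₁ A₂ F₁ F₂ g
        h1 h2 hb1 hb2 hΛ, Finset.sum_const, Finset.card_range, nsmul_eq_mul, smul_eq_mul]
    field_simp

theorem wS_avg {n : ℕ} (w : ℕ → Tor L → Fin 3 → Alg (Tor L)) (b : Tor L → ℝ) (g : Fin 3) :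
    wS (fun x g => (1 / (n : ℝ)) • ∑ i ∈ Finset.range n, w i x g) b g =
      (1 / (n : ℝ)) • ∑ i ∈ Finset.range n, wS (w i) b g := by
  unfold wS
  rw [Finset.sum_comm, Finset.smul_sum]
  refine Finset.sum_congr rfl fun x _ => ?_
  rw [smul_comm, Finset.smul_sum]

/-! ### the identity for two scales -/

theorem ident {G : Gr (Tor L) ι} {β r l₁ l₂ : ℝ} {w : Tor L → Fin 3 → Alg (Tor L)}
    {m : Tor L → Tor L → ℝ} (hw : ESS G β r w) (hr : 0 ≤ r) (hm : Ker m l₁ l₂)
    (hl₁ : 2 * r ≤ l₁) (hl₂ : 0 ≤ l₂) {Λ : Finset (Tor L)} (W : WFun G β Λ)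
    (T : Fin 3 → Alg (Tor L)) {A : Set (Tor L)} (hT : ∀ g, Loc A (T g))
    (hT1 : ∀ g, R (fun _ => 1) g (T (g + 1)) = -T (g + 2))
    (hT2 : ∀ g, R (fun _ => 1) g (T (g + 2)) = T (g + 1))
    (hA : ∀ z ∈ A, ∀ z' ∈ A, tnorm (z - z') + 2 * r ≤ l₁)
    {b : Tor L → ℝ} (hb : ∀ x, b x ≠ 0 → ∀ z, tnorm (z - x) ≤ l₂ + 3 * r → z ∈ Λ)
    (hAΛ : ∀ z ∈ A, ∀ x, tnorm (x - z) ≤ 2 * r → x ∈ Λ) (g : Fin 3) :
    W.E (wS (pw w m) b g * T g) = 2 * W.E (wS w b g * T g) -
      W.E (wS w b (g + 1) * T (g + 1)) - W.E (wS w b (g + 2) * T (g + 2)) := by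
  classical
  rw [wS_pw w hm.sym]
  set η : Tor L → ℝ := fun x => if (∃ x', b x' ≠ 0 ∧ tnorm (x - x') ≤ 2 * r) ∨
    (∃ z ∈ A, tnorm (x - z) ≤ r) then 1 else 0 with hη
  have hη1 : ∀ x, (∃ x', b x' ≠ 0 ∧ tnorm (x - x') ≤ 2 * r) → η x = 1 := fun x hx =>
    if_pos (Or.inl hx)
  have hη2 : ∀ z ∈ A, ∀ x, tnorm (x - z) ≤ r → η x = 1 := fun z hz x hx =>
    if_pos (Or.inr ⟨z, hz, hx⟩)
  have hη0 : ∀ x, η x ≠ 0 → (∃ x', b x' ≠ 0 ∧ tnorm (x - x') ≤ 2 * r) ∨
      (∃ z ∈ A, tnorm (x - z) ≤ r) := by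
    intro x hx
    by_contra h
    exact hx (if_neg h)
  have hη4 : ∀ x, η x ≠ 0 → ∀ z, tnorm (z - x) ≤ r → z ∈ Λ := by
    intro x hx z hz
    rcases hη0 x hx with ⟨x', hx', hxx⟩ | ⟨z', hz', hxx⟩
    · refine hb x' hx' z ?_
      have := tri' z x x'
      linarith
    · refine hAΛ z' hz' z ?_
      have := tri' z x z'
      linarith
  have hcong : W.E (Uk w (fun x y => (b x - b y) * m x y) g * T g) =
      W.E (Uk w (fun x y => b x * η y - η x * b y) g * T g) := by
    refine Uk_congr hw hr W (A := A) g (hT g) ?_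
    intro x y hxy
    refine ⟨?_, ?_, ?_⟩
    · by_contra h
      push Not at h
      apply hxy
      rw [hm.one x y (by linarith), mul_one]
      have e1 : b x * η y = b x := by
        by_cases hbx : b x = 0
        · rw [hbx, zero_mul]
        · rw [hη1 y ⟨x, hbx, by rwa [tnorm_sub_comm]⟩, mul_one]
      have e2 : η x * b y = b y := by
        by_cases hby : b y = 0
        · rw [hby, mul_zero]
        · rw [hη1 x ⟨y, hby, h⟩, one_mul]
      rw [e1, e2]
    · by_contra h
      push Not at h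
      obtain ⟨⟨z₁, hz₁, hx⟩, ⟨z₂, hz₂, hy⟩⟩ := h
      apply hxy
      have e1 : m x y = 1 := by
        refine hm.one x y ?_
        have h1 := tri' x z₁ y
        have h2 := tri' z₁ z₂ y
        rw [tnorm_sub_comm z₂ y] at h2
        have h3 := hA z₁ hz₁ z₂ hz₂
        linarith
      rw [e1, hη2 z₁ hz₁ x hx, hη2 z₂ hz₂ y hy]
      ring
    · by_cases hk : (b x - b y) * m x y = 0
      · have hk' : b x * η y - η x * b y ≠ 0 := by
          intro h'
          apply hxy
          rw [hk, h']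
        have hk2 : b x * η y ≠ 0 ∨ η x * b y ≠ 0 := by
          by_contra h'
          push Not at h'
          exact hk' (by rw [h'.1, h'.2, sub_zero])
        have key : ∀ x y, b x ≠ 0 → η y ≠ 0 → (∀ z, tnorm (z - x) ≤ r → z ∈ Λ) ∧
            (∀ z, tnorm (z - y) ≤ r → z ∈ Λ) := by
          intro x y hx hy
          exact ⟨fun z hz => hb x hx z (by linarith), hη4 y hy⟩
        rcases hk2 with h' | h'
        · exact key x y (left_ne_zero_of_mul h') (right_ne_zero_of_mul h')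
        · exact (key y x (right_ne_zero_of_mul h') (left_ne_zero_of_mul h')).symm
      · have hd : tnorm (x - y) ≤ l₂ := by
          by_contra h'
          exact right_ne_zero_of_mul hk (hm.zero x y (not_le.1 h'))
        have hbb : b x ≠ 0 ∨ b y ≠ 0 := by
          by_contra h'
          push Not at h'
          exact hk (by rw [h'.1, h'.2, sub_self, zero_mul])
        rcases hbb with h' | h'
        · refine ⟨fun z hz => hb x h' z (by linarith), fun z hz => hb x h' z ?_⟩
          have := tri' z y x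
          rw [tnorm_sub_comm y x] at this
          linarith
        · refine ⟨fun z hz => hb y h' z ?_, fun z hz => hb y h' z (by linarith)⟩
          have := tri' z x y
          linarith
  have h2 := two_ward hw W (b := b) (η := η) (A₁ := A) (A₂ := ∅) (F₁ := T g) (F₂ := 1) hr g
    (hT g) (Loc_one _) hη1 hη2 (fun z hz => absurd hz (by simp)) hη4
  simp only [mul_one] at h2
  have t1 : R (fun _ => 1) (g + 2) (T g) = -T (g + 1) := by
    have h := hT1 (g + 2)
    rwa [alg1_f21, alg1_f22] at h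
  have t2 : R (fun _ => 1) (g + 1) (T g) = T (g + 2) := by
    have h := hT2 (g + 1)
    rwa [alg1_f12, alg1_f11] at h
  rw [t1, t2, mul_neg, map_neg] at h2
  rw [hcong, h2]
  ring

/-- the identity for two families of renormalised scores -/
theorem ident_sum {G : Gr (Tor L) ι} {β r r₂ l₁ l₂ : ℝ} {w w₂ : Tor L → Fin 3 → Alg (Tor L)}
    {m : Tor L → Tor L → ℝ} (hw : ESS G β r w) (hr : 0 ≤ r) (hm : Ker m l₁ l₂)
    (hl₁ : 2 * r ≤ l₁) (hl₂ : 0 ≤ l₂) (hw₂ : ESS G β r₂ w₂) (hr₂ : 0 ≤ r₂)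
    (hrl : 2 * r₂ + 2 * r ≤ l₁) {Λ : Finset (Tor L)} (W : WFun G β Λ)
    {b c : Tor L → ℝ} (hb : ∀ x, b x ≠ 0 → ∀ z, tnorm (z - x) ≤ l₂ + 3 * r → z ∈ Λ)
    (hc : ∀ x, c x ≠ 0 → ∀ z, tnorm (z - x) ≤ r₂ + 2 * r → z ∈ Λ) (g : Fin 3) :
    W.E (wS (pw w m) b g * wS w₂ c g) = 2 * W.E (wS w b g * wS w₂ c g) -
      W.E (wS w b (g + 1) * wS w₂ c (g + 1)) - W.E (wS w b (g + 2) * wS w₂ c (g + 2)) := by
  have key : ∀ (F : Alg (Tor L)) (h : Fin 3), W.E (F * wS w₂ c h) = ∑ z, c z * W.E (F * w₂ z h) := by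
    intro F h
    rw [mul_comm, wS_expand]
    exact Finset.sum_congr rfl fun z _ => by rw [mul_comm F]
  rw [key, key, key, key, Finset.mul_sum, ← Finset.sum_sub_distrib, ← Finset.sum_sub_distrib]
  refine Finset.sum_congr rfl fun z _ => ?_
  by_cases hz : c z = 0
  · rw [hz]; ring
  · rw [ident hw hr hm hl₁ hl₂ W (fun g => w₂ z g) (A := {y | tnorm (y - z) ≤ r₂})
      (fun g => (hw₂.locx hr₂ z g).loc) (fun g => hw₂.cov1 z g) (fun g => hw₂.cov2 z g) ?_ hb ?_ g]
    · ring
    · intro y hy y' hy'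
      have h1 : tnorm (y - z) ≤ r₂ := hy
      have h2 : tnorm (y' - z) ≤ r₂ := hy'
      have h3 := tri' y z y'
      rw [tnorm_sub_comm z y'] at h3
      linarith
    · intro y hy x hx
      have h1 : tnorm (y - z) ≤ r₂ := hy
      refine hc z hz x ?_
      have := tri' x y z
      linarith

end Pool.Agent.J4H66.MG
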