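import Pool.Agent.J4H66.MG.Geo

/-!
# Anisotropy of the second moments of the renormalised scores
-/

set_option autoImplicit false
set_option linter.unusedSectionVars false

noncomputable section

namespace Pool.Agent.J4H66.MG

open MvPolynomial Pool.Agent.H5R2.ON Pool.Agent.H717R2.ON3 Pool.Agent.H983R2.ONJ

variable {L : ℕ} [NeZero L] {ι : Type} [Fintype ι]

theorem mem_ball {p x : Tor L} {R : ℝ} : x ∈ ball p R ↔ tnorm (x - p) ≤ R := by
  unfold ball
  simp

/-- the anisotropy -/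
def Qd {G : Gr (Tor L) ι} {β : ℝ} {Λ : Finset (Tor L)} (W : WFun G β Λ)
    (w : Tor L → Fin 3 → Alg (Tor L)) (u v : Tor L → ℝ) (g : Fin 3) : ℝ :=
  2 * W.E (wS w u g * wS w v g) - W.E (wS w u (g + 1) * wS w v (g + 1)) -
    W.E (wS w u (g + 2) * wS w v (g + 2))

section loc

variable {G : Gr (Tor L) ι} {β r : ℝ} {w : Tor L → Fin 3 → Alg (Tor L)}
  (hw : ESS G β r w) {Λ : Finset (Tor L)} (W : WFun G β Λ)
include hw

theorem Qd_local (hr : 0 < r) {a : Tor L} {s ρ δ qu qv : ℝ} {n : ℕ} (hn : 0 < n)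
    (hs : 0 ≤ s) (hρ : s + 2 * r ≤ ρ) {u v : Tor L → ℝ}
    (hu : ∀ x, u x ≠ 0 → tnorm (x - a) ≤ s) (hv : ∀ x, v x ≠ 0 → tnorm (x - a) ≤ s)
    (hΛ : ∀ z, tnorm (z - a) ≤ 16 ^ n * ρ + r → z ∈ Λ)
    (hδ : ∀ g, W.E (wS w (lc n ρ a) g ^ 2) ≤ δ) (hδ0 : 0 ≤ δ) (hqu0 : 0 ≤ qu) (hqv0 : 0 ≤ qv)
    (hqu : ∀ (Λ' : Finset (Tor L)) (W' : WFun G β Λ') (g : Fin 3),
      (∀ z, tnorm (z - a) ≤ s + r → z ∈ Λ') → W'.E (wS w u g ^ 2) ≤ qu)
    (hqv : ∀ g, W.E (wS w v g ^ 2) ≤ qv) (g : Fin 3) :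
    |Qd W w u v g| ≤ 2 * √(δ * qu * qv) := by
  have hρ0 : 0 < ρ := by linarith
  have hloc : ∀ {b : Tor L → ℝ}, (∀ x, b x ≠ 0 → tnorm (x - a) ≤ s) → ∀ h,
      Loc {z | tnorm (z - a) ≤ s + r} (wS w b h) := by
    intro b hb h
    refine (wS_VL_sets hw hr.le b h).mono ?_
    rintro z ⟨x, hx, hz⟩
    have h1 := hb x hx
    have h2 := tri' z x a
    show tnorm (z - a) ≤ s + r
    linarith
  have hφ1 : ∀ z ∈ {z : Tor L | tnorm (z - a) ≤ s + r}, ∀ x, tnorm (x - z) ≤ r →
      lc n ρ a x = 1 := by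
    intro z hz x hx
    have hz' : tnorm (z - a) ≤ s + r := hz
    refine lc_one hn hρ0 ?_
    have := tri' x z a
    linarith
  have hφΛ : ∀ x, lc n ρ a x ≠ 0 → ∀ z, tnorm (z - x) ≤ r → z ∈ Λ := by
    intro x hx z hz
    have h1 : tnorm (x - a) < 16 ^ n * ρ := by
      by_contra h
      exact hx (lc_zero hρ0 (not_lt.1 h))
    refine hΛ z ?_
    have := tri' z x a
    linarith
  -- the two identities
  have i1 : W.E (wS w (lc n ρ a) (g + 1) * (wS w u (g + 2) * wS w v g)) =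
      -W.E (wS w u g * wS w v g) + W.E (wS w u (g + 2) * wS w v (g + 2)) := by
    rw [hw.ward1 W (g + 1) ((hloc hu (g + 2)).mul (hloc hv g)) hφ1 hφΛ, Derivation.leibniz]
    have c1 : R (fun _ => 1) (g + 1) (wS w u (g + 2)) = -wS w u g := by
      have h := hw.scov1 u (g + 1)
      rwa [alg1_f11, alg1_f12] at h
    have c2 : R (fun _ => 1) (g + 1) (wS w v g) = wS w v (g + 2) := by
      have h := hw.scov2 v (g + 1)
      rwa [alg1_f12, alg1_f11] at h
    rw [c1, c2, smul_eq_mul, smul_eq_mul, map_add, mul_neg, map_neg, mul_comm (wS w v g)]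
    ring
  have i2 : W.E (wS w (lc n ρ a) (g + 2) * (wS w u (g + 1) * wS w v g)) =
      W.E (wS w u g * wS w v g) - W.E (wS w u (g + 1) * wS w v (g + 1)) := by
    rw [hw.ward1 W (g + 2) ((hloc hu (g + 1)).mul (hloc hv g)) hφ1 hφΛ, Derivation.leibniz]
    have c1 : R (fun _ => 1) (g + 2) (wS w u (g + 1)) = wS w u g := by
      have h := hw.scov2 u (g + 2)
      rwa [alg1_f22, alg1_f21] at h
    have c2 : R (fun _ => 1) (g + 2) (wS w v g) = -wS w v (g + 1) := by
      have h := hw.scov1 v (g + 2)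
      rwa [alg1_f21, alg1_f22] at h
    rw [c1, c2, smul_eq_mul, smul_eq_mul, map_add, mul_neg, map_neg, mul_comm (wS w v g)]
    ring
  have hb : ∀ h h' h'' : Fin 3, |W.E (wS w (lc n ρ a) h * (wS w u h' * wS w v h''))| ≤
      √(δ * qu * qv) := by
    intro h h' h''
    have e1 : wS w (lc n ρ a) h * (wS w u h' * wS w v h'') =
        (wS w (lc n ρ a) h * wS w u h') * wS w v h'' := by ring
    rw [e1]
    refine (W.cs_abs _ _).trans ?_
    have e2 : W.E ((wS w (lc n ρ a) h * wS w u h') ^ 2) ≤ δ * qu := by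
      rw [mul_pow]
      have h1 := prod_sq W (ball a (s + r)) (P := wS w (lc n ρ a) h) (Q := wS w u h')
        (A := {z | ρ - r < tnorm (z - a)}) (lc_loc hw hr.le hn hρ0 a h).loc ?_ (q := qu) ?_
      · refine h1.trans ?_
        rw [mul_comm δ]
        exact mul_le_mul_of_nonneg_left (hδ h) hqu0
      · intro x hx
        rw [mem_ball] at hx
        refine ⟨hΛ x ?_, ?_⟩
        · have : ρ ≤ 16 ^ n * ρ := pow16_ge n hρ0
          linarith
        · show ¬ ρ - r < tnorm (x - a)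
          linarith
      · intro W'
        exact hqu _ W' h' (fun z hz => mem_ball.2 hz)
    rw [← Real.sqrt_mul (W.sq_nonneg _)]
    refine Real.sqrt_le_sqrt ?_
    exact mul_le_mul e2 (hqv h'') (W.sq_nonneg _) (by positivity)
  have e3 : Qd W w u v g = W.E (wS w (lc n ρ a) (g + 2) * (wS w u (g + 1) * wS w v g)) -
      W.E (wS w (lc n ρ a) (g + 1) * (wS w u (g + 2) * wS w v g)) := by
    rw [i1, i2]
    unfold Qd
    ring
  rw [e3]
  have h1 := hb (g + 2) (g + 1) g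
  have h2 := hb (g + 1) (g + 2) g
  calc _ ≤ |W.E (wS w (lc n ρ a) (g + 2) * (wS w u (g + 1) * wS w v g))| +
        |W.E (wS w (lc n ρ a) (g + 1) * (wS w u (g + 2) * wS w v g))| := abs_sub _ _
    _ ≤ _ := by linarith

/-- the second moment as a sum of local terms -/
theorem sq_local (hr : 0 ≤ r) {b η : Tor L → ℝ} {I : Finset (Tor L)}
    (ψ χ : Tor L → Tor L → ℝ) (hη : ∀ x, η x = ∑ α ∈ I, ψ α x)
    (hη1 : ∀ x, (∃ x', b x' ≠ 0 ∧ tnorm (x - x') ≤ 2 * r) → η x = 1)
    (hχ1 : ∀ α ∈ I, ∀ x, (∃ y, ψ α y ≠ 0 ∧ tnorm (x - y) ≤ 2 * r) → χ α x = 1)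
    (hbΛ : ∀ x, b x ≠ 0 → ∀ z, tnorm (z - x) ≤ r → z ∈ Λ)
    (hψΛ : ∀ α ∈ I, ∀ x, ψ α x ≠ 0 → ∀ z, tnorm (z - x) ≤ r → z ∈ Λ)
    (hχΛ : ∀ α ∈ I, ∀ x, χ α x ≠ 0 → ∀ z, tnorm (z - x) ≤ r → z ∈ Λ) (h : Fin 3) :
    W.E (wS w b h * wS w b h) = ∑ α ∈ I,
      (W.E (wS w (fun x => χ α x * (b x - b α)) h * wS w (fun x => ψ α x * (b x - b α)) h) -
        (1 / 2) * W.E (wS w (fun x => χ α x * (b x - b α) * (b x - b α)) h * wS w (ψ α) h)) := by
  -- decomposition of the second factor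
  have hb1 : ∀ x, b x = ∑ α ∈ I, ψ α x * b x := by
    intro x
    rw [← Finset.sum_mul, ← hη]
    by_cases hx : b x = 0
    · rw [hx, mul_zero]
    · rw [hη1 x ⟨x, hx, by rw [tnorm_self]; linarith⟩, one_mul]
  have A1 : W.E (wS w b h * wS w b h) = ∑ α ∈ I, W.E (wS w b h * wS w (fun x => ψ α x * b x) h) := by
    have e1 : wS w b h = ∑ α ∈ I, wS w (fun x => ψ α x * b x) h := by
      rw [← wS_sum w I (fun α x => ψ α x * b x)]
      congr 1
      funext x
      exact hb1 x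
    conv_lhs => rw [e1, Finset.mul_sum, map_sum]
    rw [← e1]
  -- locality of the local score
  have hone : ∀ α ∈ I, ∀ c : Tor L → ℝ,
      ∀ z ∈ {z : Tor L | ∃ x, ψ α x * c x ≠ 0 ∧ tnorm (z - x) ≤ r},
      ∀ x, tnorm (x - z) ≤ r → χ α x = 1 := by
    rintro α hα c z ⟨y, hy, hz⟩ x hx
    refine hχ1 α hα x ⟨y, left_ne_zero_of_mul hy, ?_⟩
    have := tri' x z y
    linarith
  have A2 : ∀ α ∈ I, W.E (wS w b h * wS w (fun x => ψ α x * b x) h) =
      W.E (wS w (fun x => χ α x * (b x - b α)) h * wS w (fun x => ψ α x * b x) h) := by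
    intro α hα
    have e1 : wS w b h = wS w (fun x => χ α x * (b x - b α)) h +
        wS w (fun x => b x - χ α x * (b x - b α)) h := by
      rw [← wS_add]
      congr 1
      funext x
      ring
    rw [e1, add_mul, map_add]
    have e2 := hw.wardc W (b := fun x => b x - χ α x * (b x - b α)) h (b α)
      (wS_VL_sets hw hr (fun x => ψ α x * b x) h) ?_ ?_
    · rw [e2, hw.scov0, map_zero, mul_zero, add_zero]
    · intro z hz x hx
      rw [hone α hα b z hz x hx]
      ring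
    · intro x hx
      by_cases hbx : b x = 0
      · refine hχΛ α hα x ?_
        intro h0
        apply hx
        rw [h0, hbx]
        ring
      · exact hbΛ x hbx
  have A3 : ∀ α ∈ I, W.E (wS w (fun x => χ α x * (b x - b α)) h * wS w (fun x => ψ α x * b x) h) =
      W.E (wS w (fun x => χ α x * (b x - b α)) h * wS w (fun x => ψ α x * (b x - b α)) h) +
        b α * W.E (wS w (fun x => χ α x * (b x - b α)) h * wS w (ψ α) h) := by
    intro α _
    have e1 : wS w (fun x => ψ α x * b x) h = wS w (fun x => ψ α x * (b x - b α)) h +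
        b α • wS w (ψ α) h := by
      rw [← wS_smul, ← wS_add]
      congr 1
      funext x
      ring
    rw [e1, mul_add, map_add, mul_smul_comm, map_smul, smul_eq_mul]
  -- the second identity
  have B1 : ∑ α ∈ I, W.E (wS w (fun x => b x ^ 2) h * wS w (ψ α) h) = 0 := by
    have e1 : wS w η h = ∑ α ∈ I, wS w (ψ α) h := by
      rw [← wS_sum w I ψ]
      congr 1
      funext x
      exact hη x
    rw [← map_sum, ← Finset.mul_sum, ← e1, mul_comm]
    rw [hw.ward1 W h (wS_VL_sets hw hr (fun x => b x ^ 2) h) ?_ ?_, hw.scov0, map_zero]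
    · rintro z ⟨y, hy, hz⟩ x hx
      refine hη1 x ⟨y, fun h0 => hy (by rw [h0]; ring), ?_⟩
      have := tri' x z y
      linarith
    · intro x hx
      rw [hη] at hx
      obtain ⟨α, hα, h0⟩ := Finset.exists_ne_zero_of_sum_ne_zero hx
      exact hψΛ α hα x h0
  have B2 : ∀ α ∈ I, W.E (wS w (fun x => b x ^ 2) h * wS w (ψ α) h) =
      W.E (wS w (fun x => χ α x * (b x - b α) * (b x - b α)) h * wS w (ψ α) h) +
        2 * (b α * W.E (wS w (fun x => χ α x * (b x - b α)) h * wS w (ψ α) h)) := by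
    intro α hα
    have e1 : wS w (fun x => b x ^ 2) h =
        wS w (fun x => χ α x * (b x - b α) * (b x - b α)) h +
          (2 * b α) • wS w (fun x => χ α x * (b x - b α)) h +
          wS w (fun x => b x ^ 2 - χ α x * (b x ^ 2 - b α ^ 2)) h := by
      rw [← wS_smul, ← wS_add, ← wS_add]
      congr 1
      funext x
      ring
    have e2 := hw.wardc W (b := fun x => b x ^ 2 - χ α x * (b x ^ 2 - b α ^ 2)) h (b α ^ 2)
      (wS_VL_sets hw hr (ψ α) h) ?_ ?_
    · rw [e1, add_mul, add_mul, map_add, map_add, e2, hw.scov0, map_zero, mul_zero, add_zero,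
        smul_mul_assoc, map_smul, smul_eq_mul]
      ring
    · rintro z ⟨y, hy, hz⟩ x hx
      rw [hχ1 α hα x ⟨y, hy, by
        have := tri' x z y
        linarith⟩]
      ring
    · intro x hx
      by_cases hbx : b x = 0
      · refine hχΛ α hα x ?_
        intro h0
        apply hx
        rw [h0, hbx]
        ring
      · exact hbΛ x hbx
  rw [Finset.sum_congr rfl B2, Finset.sum_add_distrib, ← Finset.mul_sum] at B1
  rw [A1, Finset.sum_congr rfl A2, Finset.sum_congr rfl A3, Finset.sum_add_distrib,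
    Finset.sum_sub_distrib, ← Finset.mul_sum]
  linarith

end loc

theorem Qd_sum {G : Gr (Tor L) ι} {β r : ℝ} {w : Tor L → Fin 3 → Alg (Tor L)}
    (hw : ESS G β r w) {Λ : Finset (Tor L)} (W : WFun G β Λ)
    (hr : 0 ≤ r) {b η : Tor L → ℝ} {I : Finset (Tor L)}
    (ψ χ : Tor L → Tor L → ℝ) (hη : ∀ x, η x = ∑ α ∈ I, ψ α x)
    (hη1 : ∀ x, (∃ x', b x' ≠ 0 ∧ tnorm (x - x') ≤ 2 * r) → η x = 1)
    (hχ1 : ∀ α ∈ I, ∀ x, (∃ y, ψ α y ≠ 0 ∧ tnorm (x - y) ≤ 2 * r) → χ α x = 1)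
    (hbΛ : ∀ x, b x ≠ 0 → ∀ z, tnorm (z - x) ≤ r → z ∈ Λ)
    (hψΛ : ∀ α ∈ I, ∀ x, ψ α x ≠ 0 → ∀ z, tnorm (z - x) ≤ r → z ∈ Λ)
    (hχΛ : ∀ α ∈ I, ∀ x, χ α x ≠ 0 → ∀ z, tnorm (z - x) ≤ r → z ∈ Λ) (g : Fin 3) :
    Qd W w b b g = ∑ α ∈ I,
      (Qd W w (fun x => χ α x * (b x - b α)) (fun x => ψ α x * (b x - b α)) g -
        (1 / 2) * Qd W w (fun x => χ α x * (b x - b α) * (b x - b α)) (ψ α) g) := by
  unfold Qd
  rw [sq_local hw W hr ψ χ hη hη1 hχ1 hbΛ hψΛ hχΛ g,
    sq_local hw W hr ψ χ hη hη1 hχ1 hbΛ hψΛ hχΛ (g + 1),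
    sq_local hw W hr ψ χ hη hη1 hχ1 hbΛ hψΛ hχΛ (g + 2), Finset.mul_sum,
    ← Finset.sum_sub_distrib, ← Finset.sum_sub_distrib]
  refine Finset.sum_congr rfl fun α _ => ?_
  ring

/-- **The anisotropy of the second moments is small.** -/
theorem quad_bound : ∃ C : ℝ, 0 < C ∧ ∀ (L : ℕ) [NeZero L] {ι : Type} [Fintype ι]
    (G : Gr (Tor L) ι) (β r κ : ℝ) (w : Tor L → Fin 3 → Alg (Tor L)), ESS G β r w →
    NB G β w r κ → 1 ≤ r → 2 * r < L → 0 ≤ κ → ∀ (n : ℕ), 0 < n →
    ∀ (Λ : Finset (Tor L)) (W : WFun G β Λ) (b : Tor L → ℝ) (a : Tor L) (t lam : ℝ) (g : Fin 3),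
    r ≤ t → 0 ≤ lam → (∀ x y, |b x - b y| ≤ lam * tnorm (x - y)) →
    (∀ x, b x ≠ 0 → tnorm (x - a) ≤ t) → (∀ z, tnorm (z - a) ≤ t + 16 ^ (n + 1) * r → z ∈ Λ) →
    |Qd W w b b g| ≤ C * √(κ / n) * κ * (lam * t) ^ 2 := by
  obtain ⟨c, hc, hcst⟩ := cst_ge
  obtain ⟨K, hK, hcard⟩ := card_ball_sq
  refine ⟨K * 25 * (432 / c), by positivity, ?_⟩
  intro L _ ι _ G β r κ w hw hNB hr1 hL hκ n hn Λ W b a t lam g hrt hlam hlip hsupp hΛ
  have hr : 0 < r := by linarith
  have hn' : (0 : ℝ) < n := by exact_mod_cast hn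
  have hcl : c * r ^ 2 ≤ cst L r := hcst L r hr1 hL
  have hcpos : 0 < cst L r := cst_pos hr1 hL
  have h16 : (16 : ℝ) ≤ 16 ^ n := by
    calc (16 : ℝ) = 16 ^ 1 := by norm_num
      _ ≤ 16 ^ n := pow_le_pow_right₀ (by norm_num) hn
  have h16r : 16 * (16 ^ n * r) = 16 ^ (n + 1) * r := by rw [pow_succ]; ring
  have h16r' : 16 * r ≤ 16 ^ n * r := mul_le_mul_of_nonneg_right h16 hr.le
  -- the partition
  set I : Finset (Tor L) := ball a (t + 3 * r) with hI
  set χ : Tor L → Tor L → ℝ := fun α x => pl (3 * r) α x with hχ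
  set ψ : Tor L → Tor L → ℝ := fun α x => th r α x with hψ
  have h3r : 0 < 3 * r := by linarith
  have hψs : ∀ α x, ψ α x ≠ 0 → tnorm (x - α) ≤ r := fun α x hx => th_supp hr1 hx
  have hχs : ∀ α x, χ α x ≠ 0 → tnorm (x - α) ≤ 6 * r := fun α x hx => by
    have := pl_supp h3r hx
    linarith
  have hIm : ∀ α ∈ I, tnorm (α - a) ≤ t + 3 * r := fun α hα => mem_ball.1 hα
  have hΛα : ∀ α ∈ I, ∀ z, tnorm (z - α) ≤ 16 ^ n * (8 * r) + r → z ∈ Λ := by
    intro α hα z hz
    refine hΛ z ?_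
    have h1 := tri' z α a
    have h2 := hIm α hα
    linarith
  have hη1 : ∀ x, (∃ x', b x' ≠ 0 ∧ tnorm (x - x') ≤ 2 * r) → ∑ α ∈ I, ψ α x = 1 := by
    rintro x ⟨x', hx', hxx⟩
    rw [← sum_th r hr1 x]
    refine Finset.sum_subset (Finset.subset_univ _) ?_
    intro α _ hα
    by_contra h
    apply hα
    rw [hI, mem_ball]
    have h1 := hψs α x h
    have h2 := hsupp x' hx'
    have h3 := tri' α x a
    have h4 := tri' x x' a
    rw [tnorm_sub_comm] at h1
    linarith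
  have hsum := Qd_sum hw W hr.le ψ χ (η := fun x => ∑ α ∈ I, ψ α x) (fun x => rfl) hη1
    (b := b) (by
      rintro α _ x ⟨y, hy, hxy⟩
      refine pl_one h3r ?_
      have h1 := hψs α y hy
      have h2 := tri' x y α
      linarith)
    (by
      intro x hx z hz
      refine hΛ z ?_
      have h1 := hsupp x hx
      have h2 := tri' z x a
      linarith)
    (by
      intro α hα x hx z hz
      refine hΛα α hα z ?_
      have h1 := hψs α x hx
      have h2 := tri' z x α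
      linarith)
    (by
      intro α hα x hx z hz
      refine hΛα α hα z ?_
      have h1 := hχs α x hx
      have h2 := tri' z x α
      linarith) g
  rw [hsum]
  -- bounds for the local functions
  have hbα0 : ∀ α x, |b x - b α| ≤ lam * tnorm (x - α) := fun α x => hlip x α
  have hbα1 : ∀ α x y, |(b x - b α) - (b y - b α)| ≤ lam * tnorm (x - y) := fun α x y => by
    have : (b x - b α) - (b y - b α) = b x - b y := by ring
    rw [this]
    exact hlip x y
  -- χ (b - bα)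
  have l1 : ∀ α x y, |χ α x * (b x - b α) - χ α y * (b y - b α)| ≤ (3 * lam) * tnorm (x - y) := by
    intro α x y
    refine (Aux493C.prod_lip α (χ α) (fun x => b x - b α) 1 (1 / (3 * r)) (6 * r) lam
      (fun x => pl_abs _ _ _) (by linarith) hlam (by positivity) (pl_lip h3r α) (hχs α) (hbα0 α)
      (hbα1 α) x y).trans (le_of_eq ?_)
    field_simp
    ring
  -- χ (b - bα)^2
  have l2 : ∀ α x y, |χ α x * (b x - b α) * (b x - b α) - χ α y * (b y - b α) * (b y - b α)| ≤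
      (24 * lam ^ 2 * r) * tnorm (x - y) := by
    intro α x y
    refine (Aux493C.prod_lip α (fun x => χ α x * (b x - b α)) (fun x => b x - b α)
      (6 * lam * r) (3 * lam) (6 * r) lam ?_ (by linarith) hlam (by positivity) (l1 α)
      (fun x hx => hχs α x (left_ne_zero_of_mul hx)) (hbα0 α)
      (hbα1 α) x y).trans (le_of_eq ?_)
    · intro x
      by_cases hx : χ α x = 0
      · rw [hx, zero_mul, abs_zero]
        positivity
      · rw [abs_mul]
        have h1 := hχs α x hx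
        calc |χ α x| * |b x - b α| ≤ 1 * (lam * (6 * r)) :=
              mul_le_mul (pl_abs _ _ _) ((hbα0 α x).trans (mul_le_mul_of_nonneg_left h1 hlam))
                (abs_nonneg _) zero_le_one
          _ = _ := by ring
    · ring
  -- ψ (b - bα)
  have l3 : ∀ α x y, |ψ α x * (b x - b α) - ψ α y * (b y - b α)| ≤
      (2 * lam / cst L r) * tnorm (x - y) := by
    intro α x y
    refine (Aux493C.prod_lip α (ψ α) (fun x => b x - b α) (1 / cst L r) (1 / (r * cst L r)) r lam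
      (th_abs hr1 hL α) (by linarith) hlam (by positivity) (th_lip hr1 hL α) (hψs α) (hbα0 α)
      (hbα1 α) x y).trans (le_of_eq ?_)
    field_simp
    ring
  have l4 : ∀ α x y, |ψ α x - ψ α y| ≤ 1 / (r * cst L r) * tnorm (x - y) := fun α =>
    th_lip hr1 hL α
  set δ : ℝ := 4 * κ / n with hδ
  have hδ0 : 0 ≤ δ := by positivity
  -- the local terms
  have hterm : ∀ α ∈ I,
      |Qd W w (fun x => χ α x * (b x - b α)) (fun x => ψ α x * (b x - b α)) g -
        (1 / 2) * Qd W w (fun x => χ α x * (b x - b α) * (b x - b α)) (ψ α) g| ≤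
      √(κ / n) * κ * lam ^ 2 * (432 / c) := by
    intro α hα
    have hφ : ∀ g, W.E (wS w (lc n (8 * r) α) g ^ 2) ≤ δ := fun g =>
      lc_sq hw hNB hr hn (by linarith) W α (fun z hz => hΛα α hα z (by linarith)) g
    have T1 := Qd_local hw W hr (a := α) (s := 6 * r) (ρ := 8 * r) (δ := δ)
      (qu := κ * ((3 * lam) * (6 * r)) ^ 2) (qv := κ * ((2 * lam / cst L r) * r) ^ 2) hn
      (by linarith) (by linarith) (u := fun x => χ α x * (b x - b α))
      (v := fun x => ψ α x * (b x - b α))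
      (fun x hx => hχs α x (left_ne_zero_of_mul hx))
      (fun x hx => (hψs α x (left_ne_zero_of_mul hx)).trans (by linarith)) (hΛα α hα) hφ hδ0
      (by positivity) (by positivity)
      (fun Λ' W' g' hΛ' => hNB Λ' W' _ α (6 * r) (3 * lam) g' (by linarith) (by positivity)
        (l1 α) (fun x hx => hχs α x (left_ne_zero_of_mul hx)) hΛ')
      (fun g' => hNB Λ W _ α r (2 * lam / cst L r) g' le_rfl (by positivity)
        (l3 α) (fun x hx => hψs α x (left_ne_zero_of_mul hx))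
        (fun z hz => hΛα α hα z (by linarith))) g
    have T2 := Qd_local hw W hr (a := α) (s := 6 * r) (ρ := 8 * r) (δ := δ)
      (qu := κ * ((24 * lam ^ 2 * r) * (6 * r)) ^ 2) (qv := κ * ((1 / (r * cst L r)) * r) ^ 2) hn
      (by linarith) (by linarith) (u := fun x => χ α x * (b x - b α) * (b x - b α))
      (v := ψ α)
      (fun x hx => hχs α x (left_ne_zero_of_mul (left_ne_zero_of_mul hx)))
      (fun x hx => (hψs α x hx).trans (by linarith)) (hΛα α hα) hφ hδ0
      (by positivity) (by positivity)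
      (fun Λ' W' g' hΛ' => hNB Λ' W' _ α (6 * r) (24 * lam ^ 2 * r) g' (by linarith)
        (by positivity)
        (l2 α) (fun x hx => hχs α x (left_ne_zero_of_mul (left_ne_zero_of_mul hx))) hΛ')
      (fun g' => hNB Λ W _ α r (1 / (r * cst L r)) g' le_rfl (by positivity)
        (l4 α) (fun x hx => hψs α x hx)
        (fun z hz => hΛα α hα z (by linarith))) g
    have hs1 : √(δ * (κ * ((3 * lam) * (6 * r)) ^ 2) * (κ * ((2 * lam / cst L r) * r) ^ 2)) =
        √(κ / n) * κ * (72 * lam ^ 2 * (r ^ 2 / cst L r)) := by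
      have e : δ * (κ * ((3 * lam) * (6 * r)) ^ 2) * (κ * ((2 * lam / cst L r) * r) ^ 2) =
          (κ / n) * (κ * (72 * lam ^ 2 * (r ^ 2 / cst L r))) ^ 2 := by
        rw [hδ]
        field_simp
        ring
      rw [e, Real.sqrt_mul (by positivity), Real.sqrt_sq (by positivity)]
      ring
    have hs2 : √(δ * (κ * ((24 * lam ^ 2 * r) * (6 * r)) ^ 2) *
        (κ * ((1 / (r * cst L r)) * r) ^ 2)) =
        √(κ / n) * κ * (288 * lam ^ 2 * (r ^ 2 / cst L r)) := by
      have e : δ * (κ * ((24 * lam ^ 2 * r) * (6 * r)) ^ 2) *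
          (κ * ((1 / (r * cst L r)) * r) ^ 2) =
          (κ / n) * (κ * (288 * lam ^ 2 * (r ^ 2 / cst L r))) ^ 2 := by
        rw [hδ]
        field_simp
        ring
      rw [e, Real.sqrt_mul (by positivity), Real.sqrt_sq (by positivity)]
      ring
    rw [hs1] at T1
    rw [hs2] at T2
    have hrc : r ^ 2 / cst L r ≤ 1 / c := by
      rw [div_le_div_iff₀ hcpos hc]
      linarith
    have hA : 0 ≤ √(κ / n) * κ := by positivity
    have h5 : |Qd W w (fun x => χ α x * (b x - b α)) (fun x => ψ α x * (b x - b α)) g -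
        (1 / 2) * Qd W w (fun x => χ α x * (b x - b α) * (b x - b α)) (ψ α) g| ≤
        √(κ / n) * κ * (432 * lam ^ 2 * (r ^ 2 / cst L r)) := by
      refine (abs_sub _ _).trans ?_
      rw [abs_mul, abs_of_pos (by norm_num : (0 : ℝ) < 1 / 2)]
      have := mul_nonneg hA (by positivity : 0 ≤ lam ^ 2 * (r ^ 2 / cst L r))
      nlinarith
    refine h5.trans ?_
    calc √(κ / n) * κ * (432 * lam ^ 2 * (r ^ 2 / cst L r))
        ≤ √(κ / n) * κ * (432 * lam ^ 2 * (1 / c)) := by gcongr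
      _ = _ := by ring
  refine (Finset.abs_sum_le_sum_abs _ _).trans ((Finset.sum_le_sum hterm).trans ?_)
  rw [Finset.sum_const, nsmul_eq_mul]
  have hI2 : (I.card : ℝ) ≤ K * 25 * t ^ 2 := by
    refine (hcard L a (t + 3 * r) (by linarith)).trans ?_
    have : (t + 3 * r) ^ 2 ≤ 25 * t ^ 2 := by nlinarith
    calc K * (t + 3 * r) ^ 2 ≤ K * (25 * t ^ 2) := mul_le_mul_of_nonneg_left this hK.le
      _ = _ := by ring
  have hB : 0 ≤ √(κ / n) * κ * lam ^ 2 * (432 / c) := by positivity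
  calc (I.card : ℝ) * (√(κ / n) * κ * lam ^ 2 * (432 / c))
      ≤ K * 25 * t ^ 2 * (√(κ / n) * κ * lam ^ 2 * (432 / c)) :=
        mul_le_mul_of_nonneg_right hI2 hB
    _ = _ := by ring

end Pool.Agent.J4H66.MG
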