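import Pool.Agent.J4H66.MG.Quad
import Pool.Agent.H717R2.ON3.Fun2

/-!
# Second moments of the point split scores
-/

set_option autoImplicit false
set_option linter.unusedSectionVars false

noncomputable section

namespace Pool.Agent.J4H66.MG

open MvPolynomial Pool.Agent.H5R2.ON Pool.Agent.H717R2.ON3 Pool.Agent.H983R2.ONJ

variable {L : ℕ} [NeZero L] {ι : Type} [Fintype ι]

/-- cut-off kernels built from tents of scale `s` and plateaus of scale `l` -/
def mk (s l : ℝ) (x y : Tor L) : ℝ :=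
  ∑ c, (1 / 2) * (th s c x * pl l c y + pl l c x * th s c y)

theorem Ker_mk {s l : ℝ} (hs : 1 ≤ s) (hl : 0 < l) :
    Ker (L := L) (mk s l) (l - s) (2 * l + s) where
  sym x y := by
    unfold mk
    refine Finset.sum_congr rfl fun c _ => ?_
    ring
  one x y h := by
    have key : ∀ x y : Tor L, tnorm (x - y) ≤ l - s → ∀ c, th s c x * pl l c y = th s c x := by
      intro x y h c
      by_cases h0 : th s c x = 0
      · rw [h0, zero_mul]
      · have h1 := th_supp hs h0
        have h2 := tri' y x c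
        rw [tnorm_sub_comm y x] at h2
        rw [pl_one hl (by linarith), mul_one]
    unfold mk
    have h1 : ∀ c, (1 / 2) * (th s c x * pl l c y + pl l c x * th s c y) =
        (1 / 2) * th s c x + (1 / 2) * th s c y := by
      intro c
      rw [key x y h c, mul_comm (pl l c x), key y x (by rwa [tnorm_sub_comm]) c]
      ring
    rw [Finset.sum_congr rfl fun c _ => h1 c, Finset.sum_add_distrib, ← Finset.mul_sum,
      ← Finset.mul_sum, sum_th s hs, sum_th s hs]
    norm_num
  zero x y h := by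
    have key : ∀ x y : Tor L, 2 * l + s < tnorm (x - y) → ∀ c, th s c x * pl l c y = 0 := by
      intro x y h c
      by_cases h0 : th s c x = 0
      · rw [h0, zero_mul]
      · have h1 := th_supp hs h0
        have h2 := tri' x c y
        rw [tnorm_sub_comm c y] at h2
        rw [pl_zero hl (by linarith), mul_zero]
    unfold mk
    refine Finset.sum_eq_zero fun c _ => ?_
    rw [key x y h c, mul_comm (pl l c x), key y x (by rwa [tnorm_sub_comm]) c]
    ring

/-- the difference of two plateaus -/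
def dl (l l' : ℝ) (c x : Tor L) : ℝ := pl l' c x - pl l c x

theorem dl_supp {l l' : ℝ} (hl : 0 < l) (hll : l ≤ l') {c x : Tor L} (h : dl l l' c x ≠ 0) :
    l ≤ tnorm (x - c) ∧ tnorm (x - c) ≤ 2 * l' := by
  unfold dl at h
  constructor
  · by_contra h1
    push Not at h1
    apply h
    rw [pl_one (by linarith) (by linarith), pl_one hl h1.le, sub_self]
  · by_contra h1
    push Not at h1
    apply h
    rw [pl_zero (by linarith) (by linarith), pl_zero hl (by linarith), sub_self]

theorem dl_abs (l l' : ℝ) (c x : Tor L) : |dl l l' c x| ≤ 1 := by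
  unfold dl
  have h1 := pl_nonneg l' c x
  have h2 := pl_le_one l' c x
  have h3 := pl_nonneg l c x
  have h4 := pl_le_one l c x
  rw [abs_le]
  constructor <;> linarith

theorem dl_lip {l l' : ℝ} (hl : 0 < l) (hll : l ≤ l') (c x y : Tor L) :
    |dl l l' c x - dl l l' c y| ≤ 2 / l * tnorm (x - y) := by
  have h1 := pl_lip (ρ := l') (by linarith) c x y
  have h2 := pl_lip hl c x y
  have h3 : dl l l' c x - dl l l' c y = (pl l' c x - pl l' c y) - (pl l c x - pl l c y) := by
    unfold dl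
    ring
  rw [h3]
  refine (abs_sub _ _).trans ?_
  have h4 : 1 / l' ≤ 1 / l := one_div_le_one_div_of_le hl hll
  have h5 := mul_le_mul_of_nonneg_right h4 (tnorm_nonneg (x - y))
  have h6 : 2 / l * tnorm (x - y) = 1 / l * tnorm (x - y) + 1 / l * tnorm (x - y) := by ring
  rw [h6]
  linarith

/-- one piece of the difference of two point split scores -/
def Nc (w : Tor L → Fin 3 → Alg (Tor L)) (s l l' : ℝ) (b : Tor L → ℝ) (g : Fin 3)
    (c : Tor L) : Alg (Tor L) :=
  (1 / 2 : ℝ) •
    (wS w (fun x => th s c x * (b x - b c)) (g + 1) * wS w (dl l l' c) (g + 2) -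
      wS w (th s c) (g + 1) * wS w (fun x => dl l l' c x * (b x - b c)) (g + 2) +
      wS w (fun x => dl l l' c x * (b x - b c)) (g + 1) * wS w (th s c) (g + 2) -
      wS w (dl l l' c) (g + 1) * wS w (fun x => th s c x * (b x - b c)) (g + 2))

theorem diff_eq (w : Tor L → Fin 3 → Alg (Tor L)) {s l l' : ℝ} (hs : 1 ≤ s) (hl : 0 < l)
    (hl' : 0 < l') (b : Tor L → ℝ) (g : Fin 3) :
    wS (pw w (mk s l')) b g - wS (pw w (mk s l)) b g = ∑ c, Nc w s l l' b g c := by
  rw [wS_pw w (Ker_mk hs hl').sym, wS_pw w (Ker_mk hs hl).sym, ← Uk_sub]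
  have h1 : (fun x y : Tor L => (b x - b y) * mk s l' x y - (b x - b y) * mk s l x y) =
      fun x y => ∑ c, (1 / 2) * ((th s c x * (b x - b c)) * dl l l' c y -
        th s c x * (dl l l' c y * (b y - b c)) + (dl l l' c x * (b x - b c)) * th s c y -
        dl l l' c x * (th s c y * (b y - b c))) := by
    funext x y
    unfold mk
    rw [Finset.mul_sum, Finset.mul_sum, ← Finset.sum_sub_distrib]
    refine Finset.sum_congr rfl fun c _ => ?_
    unfold dl
    ring
  rw [h1, Uk_sum w Finset.univ (fun c x y => (1 / 2) * ((th s c x * (b x - b c)) * dl l l' c y -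
        th s c x * (dl l l' c y * (b y - b c)) + (dl l l' c x * (b x - b c)) * th s c y -
        dl l l' c x * (th s c y * (b y - b c))))]
  refine Finset.sum_congr rfl fun c _ => ?_
  unfold Nc
  rw [Uk_smul w (1 / 2) (fun x y => (th s c x * (b x - b c)) * dl l l' c y -
        th s c x * (dl l l' c y * (b y - b c)) + (dl l l' c x * (b x - b c)) * th s c y -
        dl l l' c x * (th s c y * (b y - b c)))]
  congr 1
  rw [Uk_sub w (fun x y => (th s c x * (b x - b c)) * dl l l' c y -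
        th s c x * (dl l l' c y * (b y - b c)) + (dl l l' c x * (b x - b c)) * th s c y)
        (fun x y => dl l l' c x * (th s c y * (b y - b c))),
    Uk_add w (fun x y => (th s c x * (b x - b c)) * dl l l' c y -
        th s c x * (dl l l' c y * (b y - b c)))
        (fun x y => (dl l l' c x * (b x - b c)) * th s c y),
    Uk_sub w (fun x y => (th s c x * (b x - b c)) * dl l l' c y)
        (fun x y => th s c x * (dl l l' c y * (b y - b c))),
    Uk_prod w (fun x => th s c x * (b x - b c)) (dl l l' c),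
    Uk_prod w (th s c) (fun y => dl l l' c y * (b y - b c)),
    Uk_prod w (fun x => dl l l' c x * (b x - b c)) (th s c),
    Uk_prod w (dl l l' c) (fun y => th s c y * (b y - b c))]

section est

variable {G : Gr (Tor L) ι} {β r : ℝ} {w : Tor L → Fin 3 → Alg (Tor L)}
  (hw : ESS G β r w) {Λ : Finset (Tor L)} (W : WFun G β Λ)
include hw

/-- product of an inner and an outer score -/
theorem sep_prod {κ : ℝ} (hN : NB G β w r κ) (hκ : 0 ≤ κ) (hr : 0 ≤ r) {c : Tor L}
    {s l t' Lp Lq : ℝ} (hrs : r ≤ s) (hsl : s + 2 * r < l) (hlt : r ≤ t')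
    {p q : Tor L → ℝ} (hp : ∀ x, p x ≠ 0 → tnorm (x - c) ≤ s)
    (hq1 : ∀ x, q x ≠ 0 → l ≤ tnorm (x - c)) (hq2 : ∀ x, q x ≠ 0 → tnorm (x - c) ≤ t')
    (hLp : 0 ≤ Lp) (hLq : 0 ≤ Lq)
    (hpl : ∀ x y, |p x - p y| ≤ Lp * tnorm (x - y)) (hql : ∀ x y, |q x - q y| ≤ Lq * tnorm (x - y))
    (hs' : s + r ≤ t' + r)
    (hΛ : ∀ z, tnorm (z - c) ≤ t' + r → z ∈ Λ) (g₁ g₂ : Fin 3) :
    W.E ((wS w p g₁ * wS w q g₂) ^ 2) ≤ κ ^ 2 * ((Lp * s) * (Lq * t')) ^ 2 := by
  have h1 := prod_sq W (ball c (s + r)) (P := wS w q g₂) (Q := wS w p g₁)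
    (A := {z | l - r ≤ tnorm (z - c)}) ((wS_VL_sets hw hr q g₂).mono ?_) ?_
    (q := κ * (Lp * s) ^ 2) ?_
  · rw [mul_pow, mul_comm]
    refine h1.trans ?_
    have h2 := hN Λ W q c t' Lq g₂ hlt hLq hql hq2 hΛ
    calc κ * (Lp * s) ^ 2 * W.E (wS w q g₂ ^ 2) ≤ κ * (Lp * s) ^ 2 * (κ * (Lq * t') ^ 2) :=
          mul_le_mul_of_nonneg_left h2 (by positivity)
      _ = _ := by ring
  · rintro z ⟨x, hx, hz⟩
    have h2 := hq1 x hx
    have h3 := tri' x z c
    rw [tnorm_sub_comm x z] at h3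
    show l - r ≤ tnorm (z - c)
    linarith
  · intro x hx
    rw [mem_ball] at hx
    refine ⟨hΛ x (by linarith), ?_⟩
    show ¬ l - r ≤ tnorm (x - c)
    linarith
  · intro W'
    exact hN _ W' p c s Lp g₁ hrs hLp hpl hp (fun z hz => mem_ball.2 hz)

theorem inner_null (hr : 0 ≤ r) {c e : Tor L} {s l t' : ℝ} (hsl : s + 2 * r < l)
    (hce : s + 2 * r + t' < tnorm (c - e))
    {p q : Tor L → ℝ} (hp : ∀ x, p x ≠ 0 → tnorm (x - c) ≤ s)
    (hq1 : ∀ x, q x ≠ 0 → l ≤ tnorm (x - c))
    (hΛ : ∀ z, tnorm (z - c) ≤ s + r → z ∈ Λ) {F : Alg (Tor L)}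
    (hF : Loc {z | tnorm (z - e) ≤ t'} F) (g₁ g₂ : Fin 3) :
    W.E (wS w p g₁ * (wS w q g₂ * F)) = 0 := by
  refine hw.null W (A := {z | l - r ≤ tnorm (z - c)} ∪ {z | tnorm (z - e) ≤ t'}) g₁
    (Loc.mul (((wS_VL_sets hw hr q g₂).mono ?_).mono Set.subset_union_left)
      (hF.mono Set.subset_union_right)) ?_ ?_
  · rintro z ⟨x, hx, hz⟩
    have h2 := hq1 x hx
    have h3 := tri' x z c
    rw [tnorm_sub_comm x z] at h3
    show l - r ≤ tnorm (z - c)
    linarith
  · rintro z (hz | hz) x hx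
    · have hz' : l - r ≤ tnorm (z - c) := hz
      by_contra h
      have h1 := hp x h
      have h2 := tri' z x c
      rw [tnorm_sub_comm z x] at h2
      linarith
    · have hz' : tnorm (z - e) ≤ t' := hz
      by_contra h
      have h1 := hp x h
      have h2 := tri' c x e
      have h3 := tri' x z e
      rw [tnorm_sub_comm c x] at h2
      linarith
  · intro x hx z hz
    refine hΛ z ?_
    have h1 := hp x hx
    have h2 := tri' z x c
    linarith

end est

/-- **Second moment of the difference of the point split scores of two adjacent scales.** -/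
theorem diff_bound : ∃ C : ℝ, 0 < C ∧ ∀ (L : ℕ) [NeZero L] {ι : Type} [Fintype ι]
    (G : Gr (Tor L) ι) (β r κ : ℝ) (w : Tor L → Fin 3 → Alg (Tor L)), ESS G β r w →
    NB G β w r κ → 1 ≤ r → 0 ≤ κ → ∀ s : ℝ, r ≤ s → 2 * s < L →
    ∀ (Λ : Finset (Tor L)) (W : WFun G β Λ) (b : Tor L → ℝ) (a : Tor L) (t lam : ℝ) (g : Fin 3),
    1024 * s ≤ t → 0 ≤ lam → (∀ x y, |b x - b y| ≤ lam * tnorm (x - y)) →
    (∀ x, b x ≠ 0 → tnorm (x - a) ≤ t) → (∀ z, tnorm (z - a) ≤ t + 4100 * s → z ∈ Λ) →
    W.E ((wS (pw w (mk s (1024 * s))) b g - wS (pw w (mk s (64 * s))) b g) ^ 2) ≤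
      C * κ ^ 2 * (lam * t) ^ 2 := by
  obtain ⟨c₀, hc₀, hcst⟩ := cst_ge
  obtain ⟨K, hK, hcard⟩ := card_ball_sq
  refine ⟨K * 9 * (K * 4096 ^ 2) * (4 * 133120 ^ 2) / c₀ ^ 2, by positivity, ?_⟩
  intro L _ ι _ G β r κ w hw hNB hr1 hκ s hrs hL Λ W b a t lam g hst hlam hlip hsupp hΛ
  have hr : 0 < r := by linarith
  have hs1 : 1 ≤ s := hr1.trans hrs
  have hs : 0 < s := by linarith
  have hcl : c₀ * s ^ 2 ≤ cst L s := hcst L s hs1 hL
  have hcpos : 0 < cst L s := cst_pos hs1 hL
  have hl : 0 < 64 * s := by linarith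
  have hll : 64 * s ≤ 1024 * s := by linarith
  rw [diff_eq w hs1 hl (by linarith) b g]
  set I : Finset (Tor L) := ball a (t + 2048 * s) with hI
  set P : Tor L → Alg (Tor L) := fun c => Nc w s (64 * s) (1024 * s) b g c with hP
  -- pieces
  have hψs : ∀ c x : Tor L, th s c x ≠ 0 → tnorm (x - c) ≤ s := fun c x hx => th_supp hs1 hx
  have hds1 : ∀ c x : Tor L, dl (64 * s) (1024 * s) c x ≠ 0 → 64 * s ≤ tnorm (x - c) :=
    fun c x hx => (dl_supp hl hll hx).1
  have hds2 : ∀ c x : Tor L, dl (64 * s) (1024 * s) c x ≠ 0 → tnorm (x - c) ≤ 2048 * s :=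
    fun c x hx => (dl_supp hl hll hx).2.trans (by linarith)
  have hout : ∀ c, c ∉ I → P c = 0 := by
    intro c hc
    rw [hI, mem_ball] at hc
    push Not at hc
    have hb : ∀ x, tnorm (x - c) ≤ 2048 * s → b x = 0 := by
      intro x hx
      by_contra h
      have h1 := hsupp x h
      have h2 := tri' c x a
      rw [tnorm_sub_comm c x] at h2
      linarith
    have hbc : b c = 0 := hb c (by rw [tnorm_self]; positivity)
    have e1 : (fun x => th s c x * (b x - b c)) = fun _ => 0 := by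
      funext x
      by_cases h : th s c x = 0
      · rw [h, zero_mul]
      · rw [hb x (by have := hψs c x h; linarith), hbc, sub_self, mul_zero]
    have e2 : (fun x => dl (64 * s) (1024 * s) c x * (b x - b c)) = fun _ => 0 := by
      funext x
      by_cases h : dl (64 * s) (1024 * s) c x = 0
      · rw [h, zero_mul]
      · rw [hb x (hds2 c x h), hbc, sub_self, mul_zero]
    show Nc w s (64 * s) (1024 * s) b g c = 0
    unfold Nc
    rw [e1, e2]
    simp only [wS_zero]
    simp
  have hsumI : ∑ c, P c = ∑ c ∈ I, P c := by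
    symm
    refine Finset.sum_subset (Finset.subset_univ _) ?_
    intro c _ hc
    exact hout c hc
  rw [hsumI]
  have hIm : ∀ c ∈ I, tnorm (c - a) ≤ t + 2048 * s := fun c hc => mem_ball.1 hc
  have hΛc : ∀ c ∈ I, ∀ z, tnorm (z - c) ≤ 2048 * s + r → z ∈ Λ := by
    intro c hc z hz
    refine hΛ z ?_
    have h1 := tri' z c a
    have h2 := hIm c hc
    linarith
  have hb0 : ∀ c x, |b x - b c| ≤ lam * tnorm (x - c) := fun c x => hlip x c
  have hb1 : ∀ c x y, |(b x - b c) - (b y - b c)| ≤ lam * tnorm (x - y) := fun c x y => by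
    have : (b x - b c) - (b y - b c) = b x - b y := by ring
    rw [this]
    exact hlip x y
  -- Lipschitz constants
  have l1 : ∀ c x y, |th s c x * (b x - b c) - th s c y * (b y - b c)| ≤
      (2 * lam / cst L s) * tnorm (x - y) := by
    intro c x y
    refine (Aux493C.prod_lip c (th s c) (fun x => b x - b c) (1 / cst L s) (1 / (s * cst L s)) s
      lam (th_abs hs1 hL c) hs.le hlam (by positivity) (th_lip hs1 hL c) (hψs c) (hb0 c)
      (hb1 c) x y).trans (le_of_eq ?_)
    field_simp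
    ring
  have l2 : ∀ c x y, |dl (64 * s) (1024 * s) c x * (b x - b c) -
      dl (64 * s) (1024 * s) c y * (b y - b c)| ≤ (65 * lam) * tnorm (x - y) := by
    intro c x y
    refine (Aux493C.prod_lip c (dl (64 * s) (1024 * s) c) (fun x => b x - b c) 1 (2 / (64 * s))
      (2048 * s) lam (dl_abs _ _ c) (by positivity) hlam (by positivity) (dl_lip hl hll c)
      (hds2 c) (hb0 c) (hb1 c) x y).trans (le_of_eq ?_)
    field_simp
    ring
  set M : ℝ := 4 * κ ^ 2 * (133120 * (lam * s / cst L s)) ^ 2 with hM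
  have hM0 : 0 ≤ M := by positivity
  -- second moment of one piece
  have hone : ∀ c ∈ I, W.E (P c ^ 2) ≤ M := by
    intro c hc
    have hΛ1 := hΛc c hc
    -- inner times outer
    have a1 : ∀ g₁ g₂, W.E ((wS w (fun x => th s c x * (b x - b c)) g₁ *
        wS w (dl (64 * s) (1024 * s) c) g₂) ^ 2) ≤ κ ^ 2 * (128 * (lam * s / cst L s)) ^ 2 := by
      intro g₁ g₂
      refine (sep_prod hw W hNB hκ hr.le (c := c) (s := s) (l := 64 * s) (t' := 2048 * s)
        (Lp := 2 * lam / cst L s) (Lq := 2 / (64 * s)) hrs (by linarith) (by linarith)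
        (fun x hx => hψs c x (left_ne_zero_of_mul hx)) (hds1 c) (hds2 c) (by positivity)
        (by positivity) (l1 c) (dl_lip hl hll c) (by linarith) hΛ1 g₁ g₂).trans (le_of_eq ?_)
      congr 2
      field_simp
      ring
    have a2 : ∀ g₁ g₂, W.E ((wS w (th s c) g₁ *
        wS w (fun x => dl (64 * s) (1024 * s) c x * (b x - b c)) g₂) ^ 2) ≤
        κ ^ 2 * (133120 * (lam * s / cst L s)) ^ 2 := by
      intro g₁ g₂
      refine (sep_prod hw W hNB hκ hr.le (c := c) (s := s) (l := 64 * s) (t' := 2048 * s)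
        (Lp := 1 / (s * cst L s)) (Lq := 65 * lam) hrs (by linarith) (by linarith)
        (hψs c) (fun x hx => hds1 c x (left_ne_zero_of_mul hx))
        (fun x hx => hds2 c x (left_ne_zero_of_mul hx)) (by positivity)
        (by positivity) (th_lip hs1 hL c) (l2 c) (by linarith) hΛ1 g₁ g₂).trans (le_of_eq ?_)
      congr 2
      field_simp
      ring
    have a1' : ∀ g₁ g₂, W.E ((wS w (fun x => th s c x * (b x - b c)) g₁ *
        wS w (dl (64 * s) (1024 * s) c) g₂) ^ 2) ≤
        κ ^ 2 * (133120 * (lam * s / cst L s)) ^ 2 := by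
      intro g₁ g₂
      refine (a1 g₁ g₂).trans ?_
      refine mul_le_mul_of_nonneg_left ?_ (by positivity)
      refine pow_le_pow_left₀ (by positivity) ?_ 2
      refine mul_le_mul_of_nonneg_right (by norm_num) (by positivity)
    set A := wS w (fun x => th s c x * (b x - b c)) (g + 1) *
      wS w (dl (64 * s) (1024 * s) c) (g + 2) with hA
    set B := wS w (th s c) (g + 1) *
      wS w (fun x => dl (64 * s) (1024 * s) c x * (b x - b c)) (g + 2) with hB
    set C := wS w (fun x => dl (64 * s) (1024 * s) c x * (b x - b c)) (g + 1) *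
      wS w (th s c) (g + 2) with hC
    set D' := wS w (dl (64 * s) (1024 * s) c) (g + 1) *
      wS w (fun x => th s c x * (b x - b c)) (g + 2) with hD
    have hPe : P c = (1 / 2 : ℝ) • (A - B + C - D') := rfl
    have b1 : W.E (A ^ 2) ≤ κ ^ 2 * (133120 * (lam * s / cst L s)) ^ 2 := a1' _ _
    have b2 : W.E (B ^ 2) ≤ κ ^ 2 * (133120 * (lam * s / cst L s)) ^ 2 := a2 _ _
    have b3 : W.E (C ^ 2) ≤ κ ^ 2 * (133120 * (lam * s / cst L s)) ^ 2 := by
      rw [hC, mul_comm (wS w (fun x => dl (64 * s) (1024 * s) c x * (b x - b c)) (g + 1))]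
      exact a2 _ _
    have b4 : W.E (D' ^ 2) ≤ κ ^ 2 * (133120 * (lam * s / cst L s)) ^ 2 := by
      rw [hD, mul_comm (wS w (dl (64 * s) (1024 * s) c) (g + 1))]
      exact a1' _ _
    have h5 : W.E (P c ^ 2) ≤ W.E (A ^ 2 + B ^ 2 + C ^ 2 + D' ^ 2) := by
      refine W.mono ?_
      intro σ _
      rw [hPe]
      simp only [map_pow, smul_eval, map_sub, map_add]
      nlinarith [sq_nonneg (eval σ A + eval σ B), sq_nonneg (eval σ A - eval σ C),
        sq_nonneg (eval σ A + eval σ D'), sq_nonneg (eval σ B + eval σ C),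
        sq_nonneg (eval σ B - eval σ D'), sq_nonneg (eval σ C + eval σ D')]
    rw [map_add, map_add, map_add] at h5
    rw [hM]
    linarith
  -- far pieces
  have hlocP : ∀ e, Loc {z | tnorm (z - e) ≤ 2048 * s + r} (P e) := by
    intro e
    have hin : ∀ (p : Tor L → ℝ), (∀ x, p x ≠ 0 → tnorm (x - e) ≤ 2048 * s) → ∀ h,
        Loc {z | tnorm (z - e) ≤ 2048 * s + r} (wS w p h) := by
      intro p hp h
      refine (wS_VL_sets hw hr.le p h).mono ?_
      rintro z ⟨x, hx, hz⟩
      have h1 := hp x hx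
      have h2 := tri' z x e
      show tnorm (z - e) ≤ 2048 * s + r
      linarith
    have h1 := hin (fun x => th s e x * (b x - b e))
      (fun x hx => (hψs e x (left_ne_zero_of_mul hx)).trans (by linarith))
    have h2 := hin (dl (64 * s) (1024 * s) e) (hds2 e)
    have h3 := hin (th s e) (fun x hx => (hψs e x hx).trans (by linarith))
    have h4 := hin (fun x => dl (64 * s) (1024 * s) e x * (b x - b e))
      (fun x hx => hds2 e x (left_ne_zero_of_mul hx))
    have hsub : ∀ {A : Set (Tor L)} {F H : Alg (Tor L)}, Loc A F → Loc A H → Loc A (F - H) := by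
      intro A F H hF hH x hx h
      rw [map_sub, hF x hx h, hH x hx h, sub_self]
    exact (hsub ((hsub ((h1 _).mul (h2 _)) ((h3 _).mul (h4 _))).add ((h4 _).mul (h3 _)))
      ((h2 _).mul (h1 _))).smul _
  have hfar : ∀ c ∈ I, ∀ e, 4096 * s < tnorm (c - e) → W.E (P c * P e) = 0 := by
    intro c hc e hce
    have hΛ1 := hΛc c hc
    have hΛ2 : ∀ z, tnorm (z - c) ≤ s + r → z ∈ Λ := fun z hz => hΛ1 z (by linarith)
    have hce' : s + 2 * r + (2048 * s + r) < tnorm (c - e) := by linarith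
    have n1 : ∀ g₁ g₂, W.E (wS w (fun x => th s c x * (b x - b c)) g₁ *
        (wS w (dl (64 * s) (1024 * s) c) g₂ * P e)) = 0 := fun g₁ g₂ =>
      inner_null hw W hr.le (by linarith) hce'
        (fun x hx => hψs c x (left_ne_zero_of_mul hx)) (hds1 c) hΛ2 (hlocP e) g₁ g₂
    have n2 : ∀ g₁ g₂, W.E (wS w (th s c) g₁ *
        (wS w (fun x => dl (64 * s) (1024 * s) c x * (b x - b c)) g₂ * P e)) = 0 := fun g₁ g₂ =>
      inner_null hw W hr.le (by linarith) hce'
        (hψs c) (fun x hx => hds1 c x (left_ne_zero_of_mul hx)) hΛ2 (hlocP e) g₁ g₂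
    have e1 : P c * P e = (1 / 2 : ℝ) •
        (wS w (fun x => th s c x * (b x - b c)) (g + 1) *
            (wS w (dl (64 * s) (1024 * s) c) (g + 2) * P e) -
          wS w (th s c) (g + 1) *
            (wS w (fun x => dl (64 * s) (1024 * s) c x * (b x - b c)) (g + 2) * P e) +
          wS w (th s c) (g + 2) *
            (wS w (fun x => dl (64 * s) (1024 * s) c x * (b x - b c)) (g + 1) * P e) -
          wS w (fun x => th s c x * (b x - b c)) (g + 2) *
            (wS w (dl (64 * s) (1024 * s) c) (g + 1) * P e)) := by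
      have : P c = Nc w s (64 * s) (1024 * s) b g c := rfl
      rw [this]
      unfold Nc
      rw [smul_mul_assoc]
      congr 1
      ring
    rw [e1, map_smul, map_sub, map_add, map_sub, n1, n2, n2, n1]
    simp
  -- the sum
  rw [pow_two, Finset.sum_mul_sum, map_sum]
  have h6 : ∀ c ∈ I, W.E (∑ e ∈ I, P c * P e) ≤ (K * (4096 * s) ^ 2) * M := by
    intro c hc
    rw [map_sum]
    have h7 : ∀ e ∈ I, W.E (P c * P e) ≤ if tnorm (e - c) ≤ 4096 * s then M else 0 := by
      intro e he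
      split_ifs with h8
      · refine (W.mul_le_half (P c) (P e)).trans ?_
        have := hone c hc
        have := hone e he
        linarith
      · rw [hfar c hc e]
        rw [tnorm_sub_comm]
        exact not_le.1 h8
    refine (Finset.sum_le_sum h7).trans ?_
    rw [← Finset.sum_filter, Finset.sum_const, nsmul_eq_mul]
    refine mul_le_mul_of_nonneg_right ?_ hM0
    refine le_trans ?_ (hcard L c (4096 * s) (by linarith))
    norm_cast
    refine Finset.card_le_card ?_
    intro e he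
    rw [mem_ball]
    exact (Finset.mem_filter.1 he).2
  refine (Finset.sum_le_sum h6).trans ?_
  rw [Finset.sum_const, nsmul_eq_mul]
  have hI2 : (I.card : ℝ) ≤ K * 9 * t ^ 2 := by
    refine (hcard L a (t + 2048 * s) (by linarith)).trans ?_
    have : (t + 2048 * s) ^ 2 ≤ 9 * t ^ 2 := by nlinarith
    calc K * (t + 2048 * s) ^ 2 ≤ K * (9 * t ^ 2) := mul_le_mul_of_nonneg_left this hK.le
      _ = _ := by ring
  have h9 : s * (lam * s / cst L s) ≤ lam / c₀ := by
    rw [mul_div_assoc', div_le_div_iff₀ hcpos hc₀]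
    have := mul_le_mul_of_nonneg_left hcl hlam
    nlinarith
  have h10 : 0 ≤ s * (lam * s / cst L s) := by positivity
  calc (I.card : ℝ) * (K * (4096 * s) ^ 2 * M)
      ≤ (K * 9 * t ^ 2) * (K * (4096 * s) ^ 2 * M) :=
        mul_le_mul_of_nonneg_right hI2 (by positivity)
    _ = K * 9 * (K * 4096 ^ 2) * (4 * 133120 ^ 2) * κ ^ 2 * t ^ 2 *
          (s * (lam * s / cst L s)) ^ 2 := by
        rw [hM]
        ring
    _ ≤ K * 9 * (K * 4096 ^ 2) * (4 * 133120 ^ 2) * κ ^ 2 * t ^ 2 * (lam / c₀) ^ 2 := by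
        refine mul_le_mul_of_nonneg_left (pow_le_pow_left₀ h10 h9 2) (by positivity)
    _ = _ := by
        field_simp

/-- the correlation of two scales -/
theorem two_scale {G : Gr (Tor L) ι} {β r l₁ l₂ l₁' l₂' : ℝ}
    {w : Tor L → Fin 3 → Alg (Tor L)} {m m' : Tor L → Tor L → ℝ} (hw : ESS G β r w)
    (hr : 0 ≤ r) (hm : Ker m l₁ l₂) (hm' : Ker m' l₁' l₂') (h1 : 4 * r ≤ l₁)
    (h2 : 2 * (l₂ + 3 * r) + 2 * r ≤ l₁') (hl₂ : 0 ≤ l₂) (hl₂' : l₂ + 2 * r ≤ l₂')
    {Λ : Finset (Tor L)} (W : WFun G β Λ) {b : Tor L → ℝ}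
    (hb : ∀ x, b x ≠ 0 → ∀ z, tnorm (z - x) ≤ l₂' + 3 * r → z ∈ Λ) (g : Fin 3) :
    W.E (wS (pw w m') b g * wS (pw w m) b g) = 3 * Qd W w b b g := by
  have hP : ESS G β (l₂ + 3 * r) (pw w m) := ESS_pw hw hr hm (by linarith) hl₂ le_rfl
  have e1 := ident_sum hw hr hm' (by linarith) (by linarith) hP (by linarith) h2 W
    (b := b) (c := b) hb (fun x hx z hz => hb x hx z (by linarith)) g
  have e2 : ∀ h, W.E (wS w b h * wS (pw w m) b h) = Qd W w b b h := by
    intro h
    rw [mul_comm]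
    exact ident_sum hw hr hm (by linarith) hl₂ hw hr (by linarith) W
      (b := b) (c := b) (fun x hx z hz => hb x hx z (by linarith))
      (fun x hx z hz => hb x hx z (by linarith)) h
  rw [e1, e2, e2, e2]
  unfold Qd
  rw [alg1_f11, alg1_f12, alg1_f21, alg1_f22]
  ring

/-- **Second moment of the point split scores.** -/
theorem split_bound : ∃ C : ℝ, 0 < C ∧ ∀ (L : ℕ) [NeZero L] {ι : Type} [Fintype ι]
    (G : Gr (Tor L) ι) (β r κ : ℝ) (w : Tor L → Fin 3 → Alg (Tor L)), ESS G β r w →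
    NB G β w r κ → 1 ≤ r → 0 ≤ κ → ∀ s : ℝ, r ≤ s → 2 * s < L →
    ∀ (Λ : Finset (Tor L)) (W : WFun G β Λ) (b : Tor L → ℝ) (a : Tor L) (t lam : ℝ) (g : Fin 3),
    1024 * s ≤ t → 0 ≤ lam → (∀ x y, |b x - b y| ≤ lam * tnorm (x - y)) →
    (∀ x, b x ≠ 0 → tnorm (x - a) ≤ t) → (∀ z, tnorm (z - a) ≤ t + 4100 * s → z ∈ Λ) →
    W.E (wS (pw w (mk s (64 * s))) b g ^ 2) ≤ C * (κ ^ 2 + κ) * (lam * t) ^ 2 := by
  obtain ⟨C, hC, hdiff⟩ := diff_bound
  refine ⟨C + 12, by positivity, ?_⟩
  intro L _ ι _ G β r κ w hw hNB hr1 hκ s hrs hL Λ W b a t lam g hst hlam hlip hsupp hΛ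
  have hr : 0 < r := by linarith
  have hs1 : 1 ≤ s := hr1.trans hrs
  have hs : 0 < s := by linarith
  have h1 := hdiff L G β r κ w hw hNB hr1 hκ s hrs hL Λ W b a t lam g hst hlam hlip hsupp hΛ
  have h2 := two_scale hw hr.le (Ker_mk (L := L) hs1 (l := 64 * s) (by linarith))
    (Ker_mk (L := L) hs1 (l := 1024 * s) (by linarith)) (by linarith) (by linarith)
    (by linarith) (by linarith) W (b := b) (by
      intro x hx z hz
      refine hΛ z ?_
      have h3 := hsupp x hx
      have h4 := tri' z x a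
      linarith) g
  have h3 : Qd W w b b g ≤ 2 * (κ * (lam * t) ^ 2) := by
    have h4 := hNB Λ W b a t lam g (by linarith) hlam hlip hsupp
      (fun z hz => hΛ z (by linarith))
    have h5 := W.sq_nonneg (wS w b (g + 1))
    have h6 := W.sq_nonneg (wS w b (g + 2))
    unfold Qd
    rw [← pow_two, ← pow_two, ← pow_two]
    linarith
  set P := wS (pw w (mk s (64 * s))) b g with hP
  set P' := wS (pw w (mk s (1024 * s))) b g with hP'
  have h4 : W.E (P ^ 2) = W.E (P' * P) - W.E (P * (P' - P)) := by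
    rw [← map_sub]
    congr 1
    ring
  have h5 := W.neg_mul_le_half P (P' - P)
  have h6 : 0 ≤ κ * (lam * t) ^ 2 := by positivity
  have h7 : 0 ≤ κ ^ 2 * (lam * t) ^ 2 := by positivity
  have h8 : W.E (P ^ 2) ≤ 12 * (κ * (lam * t) ^ 2) + C * κ ^ 2 * (lam * t) ^ 2 := by linarith
  refine h8.trans ?_
  nlinarith [mul_nonneg hC.le h6]

end Pool.Agent.J4H66.MG
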