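import Pool.Agent.J4H66.MG.Sep

/-!
# The renormalisation step and its iteration
-/

set_option autoImplicit false
set_option linter.unusedSectionVars false

noncomputable section

namespace Pool.Agent.J4H66.MG

open MvPolynomial Pool.Agent.H5R2.ON Pool.Agent.H717R2.ON3 Pool.Agent.H983R2.ONJ

theorem NB_mono {L : ℕ} [NeZero L] {ι : Type} [Fintype ι] {G : Gr (Tor L) ι} {β r κ κ' : ℝ}
    {w : Tor L → Fin 3 → Alg (Tor L)} (h : NB G β w r κ) (hκ : κ ≤ κ') : NB G β w r κ' :=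
  fun Λ W b a t lam g h1 h2 h3 h4 h5 => (h Λ W b a t lam g h1 h2 h3 h4 h5).trans
    (mul_le_mul_of_nonneg_right hκ (sq_nonneg _))

/-- **One renormalisation step** over `n + 3` scales. -/
theorem rg_step : ∃ C : ℝ, 1 ≤ C ∧ ∀ (L : ℕ) [NeZero L] {ι : Type} [Fintype ι]
    (G : Gr (Tor L) ι) (β r κ : ℝ) (w : Tor L → Fin 3 → Alg (Tor L)), ESS G β r w →
    NB G β w r κ → 1 ≤ r → 0 ≤ κ → ∀ n : ℕ, 0 < n → 2 * (16 ^ (n + 3) * r) < L →
    ∃ w' : Tor L → Fin 3 → Alg (Tor L), ESS G β (16 ^ (n + 3) * r) w' ∧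
      NB G β w' (16 ^ (n + 3) * r) (C * (κ ^ 2 + κ) / n + C * √(κ / n) * κ) := by
  obtain ⟨C₁, hC₁, hsplit⟩ := split_bound
  obtain ⟨C₂, hC₂, hquad⟩ := quad_bound
  refine ⟨C₁ + 3 * C₂ + 1, by linarith, ?_⟩
  intro L _ ι _ G β r κ w hw hNB hr1 hκ n hn hL
  have hr : 0 < r := by linarith
  have hn' : (0 : ℝ) < n := by exact_mod_cast hn
  have hs0 : ∀ j : ℕ, r ≤ 16 ^ j * r := fun j => pow16_ge j hr
  have hsn : ∀ j < n, 65536 * (16 ^ j * r) ≤ 16 ^ (n + 3) * r := by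
    intro j hj
    have h1 : (16 : ℝ) ^ (j + 4) ≤ 16 ^ (n + 3) := pow_le_pow_right₀ (by norm_num) (by omega)
    have h2 := mul_le_mul_of_nonneg_right h1 hr.le
    have h3 : (16 : ℝ) ^ (j + 4) * r = 65536 * (16 ^ j * r) := by
      rw [pow_add]
      ring
    linarith
  set w₀ : ℕ → Tor L → Fin 3 → Alg (Tor L) := fun j =>
    pw w (mk (16 ^ j * r) (64 * (16 ^ j * r))) with hw₀
  have hESS : ∀ j < n, ESS G β (16 ^ (n + 3) * r) (w₀ j) := by
    intro j hj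
    have h0 := hs0 j
    have h1 := hsn j hj
    exact ESS_pw hw hr.le (Ker_mk (by linarith) (by linarith)) (by linarith) (by linarith)
      (by linarith)
  refine ⟨fun x g => (1 / (n : ℝ)) • ∑ i ∈ Finset.range n, w₀ i x g, ESS_avg hn w₀ hESS, ?_⟩
  intro Λ W b a t lam g hrt hlam hlip hsupp hΛ
  rw [wS_avg]
  have hlt : 0 ≤ (lam * t) ^ 2 := sq_nonneg _
  have hsq0 : 0 ≤ √(κ / n) * κ := mul_nonneg (Real.sqrt_nonneg _) hκ
  have hk2 : 0 ≤ κ ^ 2 + κ := by positivity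
  refine (avg_sq W hn (fun j => wS (w₀ j) b g) (C₁ := C₁ * (κ ^ 2 + κ) * (lam * t) ^ 2)
    (C₂ := 3 * (C₂ * √(κ / n) * κ * (lam * t) ^ 2)) (by positivity) ?_ ?_).trans ?_
  · intro j hj
    have h0 := hs0 j
    have h1 := hsn j hj
    exact hsplit L G β r κ w hw hNB hr1 hκ (16 ^ j * r) h0 (by linarith) Λ W b a t lam g
      (by linarith) hlam hlip hsupp (fun z hz => hΛ z (by linarith))
  · intro i hi j hj hij
    have h0 := hs0 i
    have h1 := hsn j hj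
    have h2 : 16 * (16 ^ i * r) ≤ 16 ^ j * r := by
      have h3 : (16 : ℝ) ^ (i + 1) ≤ 16 ^ j := pow_le_pow_right₀ (by norm_num) hij
      have h4 := mul_le_mul_of_nonneg_right h3 hr.le
      rw [pow_succ] at h4
      linarith
    have h3 := two_scale hw hr.le (Ker_mk (L := L) (s := 16 ^ i * r) (l := 64 * (16 ^ i * r))
      (by linarith) (by linarith)) (Ker_mk (L := L) (s := 16 ^ j * r) (l := 64 * (16 ^ j * r))
      (by linarith) (by linarith)) (by linarith) (by linarith) (by linarith) (by linarith) W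
      (b := b) (by
        intro x hx z hz
        refine hΛ z ?_
        have h3 := hsupp x hx
        have h4 := tri' z x a
        linarith) g
    have h4 := hquad L G β r κ w hw hNB hr1 (by linarith) hκ n hn Λ W b a t lam g
      (by linarith) hlam hlip hsupp (fun z hz => hΛ z (by
        have h5 : (16 : ℝ) ^ (n + 1) ≤ 16 ^ (n + 3) := pow_le_pow_right₀ (by norm_num) (by omega)
        have h6 := mul_le_mul_of_nonneg_right h5 hr.le
        linarith))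
    show W.E (wS (w₀ j) b g * wS (w₀ i) b g) ≤ _
    rw [hw₀]
    simp only
    rw [h3]
    linarith [le_abs_self (Qd W w b b g)]
  · have e1 : C₁ * (κ ^ 2 + κ) * (lam * t) ^ 2 / n = C₁ * ((κ ^ 2 + κ) * (lam * t) ^ 2 / n) := by
      ring
    have h5 : 0 ≤ (κ ^ 2 + κ) * (lam * t) ^ 2 / n := by positivity
    have h6 : 0 ≤ √(κ / n) * κ * (lam * t) ^ 2 := by positivity
    have e2 : ((C₁ + 3 * C₂ + 1) * (κ ^ 2 + κ) / n + (C₁ + 3 * C₂ + 1) * √(κ / n) * κ) *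
        (lam * t) ^ 2 = (C₁ + 3 * C₂ + 1) * ((κ ^ 2 + κ) * (lam * t) ^ 2 / n) +
        (C₁ + 3 * C₂ + 1) * (√(κ / n) * κ * (lam * t) ^ 2) := by ring
    have e3 : 3 * (C₂ * √(κ / n) * κ * (lam * t) ^ 2) =
        3 * C₂ * (√(κ / n) * κ * (lam * t) ^ 2) := by ring
    rw [e1, e2, e3]
    nlinarith

/-- **Halving of the stiffness** over a number of scales proportional to the stiffness. -/
theorem rg_half : ∃ C : ℝ, 1 ≤ C ∧ ∀ κ : ℝ, 0 < κ → ∃ m : ℕ, (m : ℝ) ≤ C * (1 + κ) ∧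
    ∀ (L : ℕ) [NeZero L] {ι : Type} [Fintype ι]
    (G : Gr (Tor L) ι) (β r : ℝ) (w : Tor L → Fin 3 → Alg (Tor L)), ESS G β r w →
    NB G β w r κ → 1 ≤ r → 2 * (16 ^ m * r) < L →
    ∃ w' : Tor L → Fin 3 → Alg (Tor L), ESS G β (16 ^ m * r) w' ∧
      NB G β w' (16 ^ m * r) (κ / 2) := by
  obtain ⟨C, hC, hstep⟩ := rg_step
  refine ⟨16 * C ^ 2 + 4, by nlinarith, ?_⟩
  intro κ hκ
  have hx : 0 ≤ 16 * C ^ 2 * (1 + κ) := by positivity
  refine ⟨⌈16 * C ^ 2 * (1 + κ)⌉₊ + 3, ?_, ?_⟩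
  · push_cast
    have := (Nat.ceil_lt_add_one hx).le
    nlinarith
  · intro L _ ι _ G β r w hw hNB hr1 hL
    have hn0 : 0 < ⌈16 * C ^ 2 * (1 + κ)⌉₊ := Nat.ceil_pos.2 (by positivity)
    obtain ⟨w', h1, h2⟩ := hstep L G β r κ w hw hNB hr1 hκ.le _ hn0 hL
    refine ⟨w', h1, NB_mono h2 ?_⟩
    set n : ℕ := ⌈16 * C ^ 2 * (1 + κ)⌉₊ with hn
    have hn1 : 16 * C ^ 2 * (1 + κ) ≤ n := Nat.le_ceil _
    have hn' : (0 : ℝ) < n := by exact_mod_cast hn0
    have hC0 : 0 < C := by linarith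
    have h3 : C * (κ ^ 2 + κ) / n ≤ κ / 4 := by
      rw [div_le_div_iff₀ hn' (by norm_num)]
      have h4 : 4 * C ≤ 16 * C ^ 2 := by nlinarith
      have h5 : 4 * C * (1 + κ) ≤ n := (mul_le_mul_of_nonneg_right h4 (by positivity)).trans hn1
      have h6 := mul_le_mul_of_nonneg_left h5 hκ.le
      nlinarith
    have h4 : √(κ / n) ≤ 1 / (4 * C) := by
      rw [Real.sqrt_le_left (by positivity), div_pow, one_pow, mul_pow,
        div_le_div_iff₀ hn' (by positivity)]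
      nlinarith [sq_nonneg C]
    have h5 : C * √(κ / n) * κ ≤ κ / 4 := by
      calc C * √(κ / n) * κ ≤ C * (1 / (4 * C)) * κ := by gcongr
        _ = κ / 4 := by field_simp
    linarith

/-- **Iteration of the renormalisation step.** -/
theorem rg_iter (ε : ℝ) (hε : 0 < ε) : ∃ c : ℝ, 0 < c ∧ ∀ (k : ℕ)
    (L : ℕ) [NeZero L] {ι : Type} [Fintype ι]
    (G : Gr (Tor L) ι) (β r κ : ℝ) (w : Tor L → Fin 3 → Alg (Tor L)), ESS G β r w →
    NB G β w r κ → 1 ≤ r → κ ≤ 2 ^ k * ε → 2 * (Real.exp (c * (k + 2 * (2 ^ k * ε))) * r) < L →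
    ∃ (r' : ℝ) (w' : Tor L → Fin 3 → Alg (Tor L)), r ≤ r' ∧
      r' ≤ Real.exp (c * (k + 2 * (2 ^ k * ε))) * r ∧ ESS G β r' w' ∧ NB G β w' r' ε := by
  obtain ⟨C, hC, hhalf⟩ := rg_half
  refine ⟨3 * C, by linarith, ?_⟩
  intro k
  induction k with
  | zero =>
    intro L _ ι _ G β r κ w hw hNB hr1 hκ hL
    refine ⟨r, w, le_rfl, ?_, hw, NB_mono hNB (by simpa using hκ)⟩
    have h1 : (1 : ℝ) ≤ Real.exp (3 * C * ((0 : ℕ) + 2 * (2 ^ 0 * ε))) := by
      rw [Real.one_le_exp_iff]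
      have : (0 : ℝ) ≤ ((0 : ℕ) : ℝ) := Nat.cast_nonneg _
      positivity
    nlinarith
  | succ k ih =>
    intro L _ ι _ G β r κ w hw hNB hr1 hκ hL
    have hr : 0 < r := by linarith
    have hκ' : 0 < 2 ^ (k + 1) * ε := by positivity
    obtain ⟨m, hm1, hm2⟩ := hhalf (2 ^ (k + 1) * ε) hκ'
    have h16 : (16 : ℝ) ^ m ≤ Real.exp (3 * C * (1 + 2 ^ (k + 1) * ε)) := by
      have h1 : (16 : ℝ) ≤ Real.exp 3 := by
        have h2 : (2.7 : ℝ) < Real.exp 1 := by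
          have := Real.exp_one_gt_d9
          linarith
        have h3 : Real.exp 3 = Real.exp 1 ^ 3 := by
          rw [← Real.exp_nat_mul]
          norm_num
        rw [h3]
        have h4 : (2.7 : ℝ) ^ 3 ≤ Real.exp 1 ^ 3 := pow_le_pow_left₀ (by norm_num) h2.le 3
        norm_num at h4 ⊢
        linarith
      have h2 : (16 : ℝ) ^ m ≤ Real.exp 3 ^ m := pow_le_pow_left₀ (by norm_num) h1 _
      refine h2.trans ?_
      rw [← Real.exp_nat_mul]
      refine Real.exp_le_exp.2 ?_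
      nlinarith
    have hexp : Real.exp (3 * C * (k + 2 * (2 ^ k * ε))) *
        Real.exp (3 * C * (1 + 2 ^ (k + 1) * ε)) =
        Real.exp (3 * C * (((k + 1 : ℕ) : ℝ) + 2 * (2 ^ (k + 1) * ε))) := by
      rw [← Real.exp_add]
      congr 1
      push_cast
      rw [pow_succ]
      ring
    have hge : (16 : ℝ) ^ m * r ≤ Real.exp (3 * C * (1 + 2 ^ (k + 1) * ε)) * r :=
      mul_le_mul_of_nonneg_right h16 hr.le
    have hE1 : (1 : ℝ) ≤ Real.exp (3 * C * (k + 2 * (2 ^ k * ε))) := by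
      rw [Real.one_le_exp_iff]
      positivity
    have hge2 : Real.exp (3 * C * (k + 2 * (2 ^ k * ε))) * ((16 : ℝ) ^ m * r) ≤
        Real.exp (3 * C * (((k + 1 : ℕ) : ℝ) + 2 * (2 ^ (k + 1) * ε))) * r := by
      rw [← hexp, mul_assoc (Real.exp (3 * C * (k + 2 * (2 ^ k * ε))))]
      exact mul_le_mul_of_nonneg_left hge (Real.exp_pos _).le
    have h16m : (1 : ℝ) ≤ 16 ^ m := one_le_pow₀ (by norm_num)
    have hge3 : (16 : ℝ) ^ m * r ≤ Real.exp (3 * C * (k + 2 * (2 ^ k * ε))) *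
        ((16 : ℝ) ^ m * r) := by
      have : 0 ≤ (16 : ℝ) ^ m * r := by positivity
      nlinarith
    obtain ⟨w₁, h1, h2⟩ := hm2 L G β r w hw (NB_mono hNB hκ) hr1 (by linarith)
    have hr' : r ≤ 16 ^ m * r := by nlinarith
    obtain ⟨r', w', h3, h4, h5, h6⟩ := ih L G β (16 ^ m * r) (2 ^ (k + 1) * ε / 2) w₁ h1 h2
      (by linarith) (le_of_eq (by rw [pow_succ]; ring)) (by linarith)
    exact ⟨r', w', hr'.trans h3, h4.trans hge2, h5, h6⟩

/-! ### the bare scores -/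

theorem NB_S1 : ∃ K₁ : ℝ, 0 < K₁ ∧ ∀ (L : ℕ) [NeZero L] {ι : Type} [Fintype ι]
    (G : Gr (Tor L) ι) (β ρ K : ℝ), Nice G β ρ K → 1 ≤ ρ → 0 ≤ K →
    NB G β (S1 G β) ρ (K₁ * K) := by
  obtain ⟨K₁, hK₁, hen⟩ := energyJ
  refine ⟨9 * K₁, by positivity, ?_⟩
  intro L _ ι _ G β ρ K hG hρ hK Λ W b a t lam g hrt hlam hlip hsupp hΛ
  rw [wS_S1]
  refine (W.mom2 hG.beta (fun x hx => ?_) g).trans ?_
  · by_contra h
    exact hx (hΛ x (by have := hsupp x h; linarith))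
  · refine (hen L G β ρ K hG (by linarith) hK b a t lam (by linarith) hlam hlip hsupp).trans ?_
    have h1 : (1 + t + ρ) ^ 2 ≤ (3 * t) ^ 2 :=
      pow_le_pow_left₀ (by linarith) (by linarith) 2
    calc K₁ * K * (1 + t + ρ) ^ 2 * lam ^ 2 ≤ K₁ * K * (3 * t) ^ 2 * lam ^ 2 := by gcongr
      _ = _ := by ring

theorem choice_k (ε : ℝ) (hε : 0 < ε) (κ : ℝ) (hκ : 0 ≤ κ) : ∃ k : ℕ, κ ≤ 2 ^ k * ε ∧
    (k : ℝ) + 2 * (2 ^ k * ε) ≤ (2 + 4 * ε + (2 / ε + 4)) * (1 + κ) := by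
  have hex : ∃ k : ℕ, κ / ε ≤ 2 ^ k := by
    obtain ⟨k, hk⟩ := pow_unbounded_of_one_lt (κ / ε) (by norm_num : (1 : ℝ) < 2)
    exact ⟨k, hk.le⟩
  classical
  set k := Nat.find hex with hk
  have h1 : κ / ε ≤ 2 ^ k := Nat.find_spec hex
  have h2 : (2 : ℝ) ^ k ≤ 2 * (1 + κ / ε) := by
    rcases Nat.eq_zero_or_pos k with h | h
    · rw [h, pow_zero]
      have : 0 ≤ κ / ε := by positivity
      linarith
    · have h3 : ¬ κ / ε ≤ 2 ^ (k - 1) := Nat.find_min hex (by omega)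
      push Not at h3
      have h4 : (2 : ℝ) ^ k = 2 * 2 ^ (k - 1) := by
        rw [← pow_succ']
        congr 1
        omega
      rw [h4]
      linarith
  refine ⟨k, ?_, ?_⟩
  · rwa [div_le_iff₀ hε] at h1
  · have h3 : (k : ℝ) ≤ 2 ^ k := by
      have : k < 2 ^ k := Nat.lt_two_pow_self
      exact_mod_cast this.le
    have h4 : 2 ^ k * ε ≤ 2 * (1 + κ / ε) * ε := mul_le_mul_of_nonneg_right h2 hε.le
    have h5 : 2 * (1 + κ / ε) * ε = 2 * ε + 2 * κ := by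
      field_simp
    have h6 : κ / ε = (1 / ε) * κ := by ring
    have h7 : 0 ≤ 1 / ε := by positivity
    have h8 : (2 : ℝ) / ε = 2 * (1 / ε) := by ring
    rw [h8]
    rw [h5] at h4
    rw [h6] at h2
    nlinarith [mul_nonneg h7 hκ, mul_nonneg hε.le hκ]

/-- **The influence bound**: the scale is the exponential of a constant times the coupling. -/
theorem main_bound (ε : ℝ) (hε : 0 < ε) : ∃ C : ℝ, 0 < C ∧ ∀ K : ℝ, 0 ≤ K →
    ∀ R : ℝ, Real.exp (C * (1 + K)) ≤ R → ∀ (L : ℕ) [NeZero L], 2 * R < L →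
      ∀ {ι : Type} [Fintype ι]
      (G : Gr (Tor L) ι) (β ρ : ℝ), Nice G β ρ K → 1 ≤ ρ → ρ ≤ √R → ∀ (p : Tor L)
      (W : WFun G β (ball p R)), ∃ U : Alg (Tor L),
      W.E (U ^ 2) ≤ ε ∧ W.E (X (p, 0)) = W.E (U * X (p, 1)) ∧
      ∀ σ σ' : Tor L × Fin 3 → ℝ,
        (∀ x, R / 8 ≤ tnorm (x - p) → ∀ g, σ (x, g) = σ' (x, g)) →
          eval σ U = eval σ' U := by
  obtain ⟨K₁, hK₁, hbase⟩ := NB_S1
  obtain ⟨c, hc, hiter⟩ := rg_iter (ε / 4) (by positivity)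
  obtain ⟨D₀, hD₀⟩ : ∃ D₀ : ℝ, D₀ = 2 + 4 * (ε / 4) + (2 / (ε / 4) + 4) := ⟨_, rfl⟩
  have hD₀' : 0 < D₀ := by rw [hD₀]; positivity
  refine ⟨2 * (c * D₀ * (1 + K₁) + 3), by positivity, ?_⟩
  intro K hK R hR L _ hL ι _ G β ρ hG hρ1 hρR p W
  obtain ⟨k, hk1, hk2⟩ := choice_k (ε / 4) (by positivity) (K₁ * K) (by positivity)
  rw [← hD₀] at hk2
  have hR0 : 0 < R := lt_of_lt_of_le (Real.exp_pos _) hR
  have hsR0 : 0 < √R := Real.sqrt_pos.2 hR0
  have hss : √R * √R = R := Real.mul_self_sqrt hR0.le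
  -- the scale
  have hscale : 8 * Real.exp (c * (k + 2 * (2 ^ k * (ε / 4)))) ≤ √R := by
    have h1 : Real.exp ((c * D₀ * (1 + K₁) + 3) * (1 + K)) ≤ √R := by
      rw [Real.le_sqrt (Real.exp_pos _).le hR0.le, ← Real.exp_nat_mul]
      refine le_trans (le_of_eq ?_) hR
      congr 1
      push_cast
      ring
    have h2 : (8 : ℝ) ≤ Real.exp 3 := by
      have h3 : (2 : ℝ) ≤ Real.exp 1 := by
        have := Real.add_one_le_exp (1 : ℝ)
        linarith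
      have h4 : Real.exp 3 = Real.exp 1 ^ 3 := by
        rw [← Real.exp_nat_mul]
        norm_num
      rw [h4]
      calc (8 : ℝ) = 2 ^ 3 := by norm_num
        _ ≤ Real.exp 1 ^ 3 := pow_le_pow_left₀ (by norm_num) h3 3
    have h3 : c * (k + 2 * (2 ^ k * (ε / 4))) ≤ c * (D₀ * (1 + K₁ * K)) :=
      mul_le_mul_of_nonneg_left hk2 hc.le
    have h4 : (1 + K₁ * K) ≤ (1 + K₁) * (1 + K) := by nlinarith
    have h5 : c * (D₀ * (1 + K₁ * K)) ≤ c * (D₀ * ((1 + K₁) * (1 + K))) := by gcongr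
    calc 8 * Real.exp (c * (k + 2 * (2 ^ k * (ε / 4))))
        ≤ Real.exp 3 * Real.exp (c * (k + 2 * (2 ^ k * (ε / 4)))) :=
          mul_le_mul_of_nonneg_right h2 (Real.exp_pos _).le
      _ = Real.exp (3 + c * (k + 2 * (2 ^ k * (ε / 4)))) := by rw [Real.exp_add]
      _ ≤ Real.exp ((c * D₀ * (1 + K₁) + 3) * (1 + K)) := by
          refine Real.exp_le_exp.2 ?_
          nlinarith
      _ ≤ √R := h1
  set E₀ : ℝ := Real.exp (c * (k + 2 * (2 ^ k * (ε / 4)))) with hE₀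
  have hE₀0 : 0 < E₀ := Real.exp_pos _
  have hEρ : 8 * (E₀ * ρ) ≤ R := by
    calc 8 * (E₀ * ρ) = (8 * E₀) * ρ := by ring
      _ ≤ √R * √R := mul_le_mul hscale hρR (by linarith) hsR0.le
      _ = R := hss
  obtain ⟨r', w', h1, h2, h3, h4⟩ := hiter k L G β ρ (K₁ * K) (S1 G β)
    (ESS_S1 hG le_rfl (by linarith)) (hbase L G β ρ K hG hρ1 hK) hρ1 hk1 (by linarith)
  have hr'0 : 0 < r' := by linarith
  have hr'8 : 8 * r' ≤ R := by linarith
  refine ⟨wS w' (fR R p) 2, ?_, ?_, ?_⟩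
  · refine (h4 _ W (fR R p) p (R / 2) (4 / R) 2 (by linarith) (by positivity)
      (fun x y => Aux493C.fR_lip R hR0 p x y) (fun x hx => Aux493C.fR_supp R hR0 p x hx)
      (fun z hz => mem_ball.2 (by linarith))).trans (le_of_eq ?_)
    field_simp
    ring
  · have h5 := h3.ward1 W (b := fR R p) (A := {x | tnorm (x - p) ≤ 0}) (F := X (p, 1)) 2
      ?_ ?_ ?_
    · rw [h5]
      have h6 := alg1_R2 (V := Tor L) p 2
      have a1 : (2 : Fin 3) + 1 = 0 := by decide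
      have a2 : (2 : Fin 3) + 2 = 1 := by decide
      rw [a1, a2] at h6
      rw [h6]
    · refine (VL_X (A := {x | tnorm (x - p) ≤ 0}) ?_ 1).loc
      show tnorm (p - p) ≤ 0
      rw [tnorm_self]
    · intro z hz x hx
      have hz' : tnorm (z - p) ≤ 0 := hz
      refine fR_near R hR0 p x ?_
      have := tri' x z p
      linarith
    · intro x hx z hz
      have h6 := Aux493C.fR_supp R hR0 p x hx
      rw [mem_ball]
      have := tri' z x p
      linarith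
  · intro σ σ' hσ
    have h5 : VL {x : Tor L | R / 8 ≤ tnorm (x - p)} (wS w' (fR R p) 2) := by
      refine h3.loc _ _ _ ?_
      intro z hz x hx
      have hz' : tnorm (z - p) < R / 8 := not_le.1 hz
      rw [fR_near R hR0 p x, fR_near R hR0 p z]
      · linarith
      · have := tri' x z p
        linarith
    exact h5.eval_congr hσ

end Pool.Agent.J4H66.MG
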